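import Pool.Agent.K1H93.PG.Tr

/-!
# Short bilinear forms with characters: the number of pairs of closed walks
-/

set_option autoImplicit false

namespace Pool.Agent.K1H93.PG

open Finset

theorem div_card (n : ℤ) (hn : n ≠ 0) (S : Finset ℤ) (hS : ∀ d ∈ S, d ∣ n) :
    S.card ≤ 2 * n.natAbs.divisors.card := by
  classical
  have h : S ⊆ (n.natAbs.divisors.image (fun d : ℕ => (d : ℤ))) ∪ (n.natAbs.divisors.image (fun d : ℕ => -(d : ℤ))) := by
    intro d hd
    have h1 : d.natAbs ∈ n.natAbs.divisors := by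
      rw [Nat.mem_divisors]
      exact ⟨Int.natAbs_dvd_natAbs.2 (hS d hd), Int.natAbs_ne_zero.2 hn⟩
    rw [mem_union, mem_image, mem_image]
    rcases le_total 0 d with h0 | h0
    · exact Or.inl ⟨d.natAbs, h1, Int.natAbs_of_nonneg h0⟩
    · refine Or.inr ⟨d.natAbs, h1, ?_⟩
      rw [Int.ofNat_natAbs_of_nonpos h0, neg_neg]
  calc S.card ≤ _ := card_le_card h
    _ ≤ _ := card_union_le _ _
    _ ≤ n.natAbs.divisors.card + n.natAbs.divisors.card := Nat.add_le_add card_image_le card_image_le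
    _ = _ := by ring

section
variable {κ : Type} [Fintype κ] [DecidableEq κ] (v : κ → ℤ)

omit [DecidableEq κ] in
theorem sum_Wk' {s : ℕ} (F : Wk κ (s + 1) → ℕ) : ∑ w, F w = ∑ b : κ, ∑ z : κ, ∑ w : Wk κ s, F ((b, z), w) := by
  let F' : (κ × κ) × Wk κ s → ℕ := F
  have e : ∑ w, F w = ∑ w : (κ × κ) × Wk κ s, F' w := rfl
  rw [e, Fintype.sum_prod_type, Fintype.sum_prod_type]

omit [DecidableEq κ] in
theorem lab_card (hv : Function.Injective v) (y : ℤ) (n : ℤ) (hn : n ≠ 0) (p : κ → Prop) [DecidablePred p]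
    (hp : ∀ b, p b → (y + v b) ∣ n) : ((univ : Finset κ).filter p).card ≤ 2 * n.natAbs.divisors.card := by
  classical
  have hinj : Set.InjOn (fun b => y + v b) ((univ : Finset κ).filter p : Set κ) := by
    intro a _ b _ hab
    exact hv (by simpa using hab)
  rw [← card_image_of_injOn hinj]
  apply div_card n hn
  intro d hd
  obtain ⟨b, hb, rfl⟩ := mem_image.1 hd
  exact hp b (mem_filter.1 hb).2

omit [DecidableEq κ] in
theorem lab_card' (hv : Function.Injective v) (y : ℤ) (n : ℤ) (hn : n ≠ 0) (p : κ → Prop) [DecidablePred p]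
    (hp : ∀ b, p b → (v b + y) ∣ n) : ((univ : Finset κ).filter p).card ≤ 2 * n.natAbs.divisors.card :=
  lab_card v hv y n hn p fun b hb => by rw [add_comm]; exact hp b hb

omit [DecidableEq κ] in
open Classical in
theorem walk_count (hv : Function.Injective v) (n m : ℤ) (hn : n ≠ 0) (hm : m ≠ 0) (s : ℕ) : ∀ x : κ,
    ((univ : Finset (Wk κ s)).filter (fun w => nn v s x w ∣ n ∧ mm v s x w ∣ m)).card ≤
      ((2 * n.natAbs.divisors.card) * (2 * m.natAbs.divisors.card)) ^ s := by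
  induction s with
  | zero =>
    intro x
    refine (card_filter_le _ _).trans ?_
    rw [pow_zero, card_univ, card_Wk, mul_zero, pow_zero]
  | succ s ih =>
    intro x
    set K := ((2 * n.natAbs.divisors.card) * (2 * m.natAbs.divisors.card)) ^ s with hK
    rw [card_filter, sum_Wk']
    have h1 : ∀ b z : κ, (∑ w : Wk κ s, if nn v (s + 1) x ((b, z), w) ∣ n ∧ mm v (s + 1) x ((b, z), w) ∣ m then 1 else 0)
        ≤ if (v x + v b) ∣ n then (if (v z + v b) ∣ m then K else 0) else 0 := by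
      intro b z
      have e1 : ∀ w : Wk κ s, nn v (s + 1) x ((b, z), w) = (v x + v b) * nn v s z w := fun w => rfl
      have e2 : ∀ w : Wk κ s, mm v (s + 1) x ((b, z), w) = (v z + v b) * mm v s z w := fun w => rfl
      simp only [e1, e2]
      split_ifs with h2 h3
      · refine le_trans ?_ (ih z)
        rw [card_filter]
        refine sum_le_sum fun w _ => ?_
        by_cases h4 : (v x + v b) * nn v s z w ∣ n ∧ (v z + v b) * mm v s z w ∣ m
        · rw [if_pos h4, if_pos ⟨(Dvd.intro_left _ rfl).trans h4.1, (Dvd.intro_left _ rfl).trans h4.2⟩]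
        · rw [if_neg h4]; exact Nat.zero_le _
      · refine le_of_eq (sum_eq_zero fun w _ => if_neg fun h4 => h3 ((Dvd.intro _ rfl).trans h4.2))
      · refine le_of_eq (sum_eq_zero fun w _ => if_neg fun h4 => h2 ((Dvd.intro _ rfl).trans h4.1))
    calc _ ≤ ∑ b : κ, ∑ z : κ, (if (v x + v b) ∣ n then (if (v z + v b) ∣ m then K else 0) else 0) :=
          sum_le_sum fun b _ => sum_le_sum fun z _ => h1 b z
      _ ≤ ∑ b : κ, (if (v x + v b) ∣ n then (2 * m.natAbs.divisors.card) * K else 0) := by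
          refine sum_le_sum fun b _ => ?_
          split_ifs with h2
          · rw [← sum_filter, sum_const, smul_eq_mul]
            exact Nat.mul_le_mul_right _ (lab_card' v hv (v b) m hm _ fun z hz => hz)
          · simp
      _ ≤ (2 * n.natAbs.divisors.card) * ((2 * m.natAbs.divisors.card) * K) := by
          rw [← sum_filter, sum_const, smul_eq_mul]
          exact Nat.mul_le_mul_right _ (lab_card v hv (v x) n hn _ fun z hz => hz)
      _ = _ := by rw [pow_succ, ← hK]; ring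

omit [DecidableEq κ] in
open Classical in
/-- closed walks -/
theorem closed_count (hv : Function.Injective v) (n m : ℤ) (hn : n ≠ 0) (hm : m ≠ 0) (s : ℕ) (D : ℕ)
    (h1 : n.natAbs.divisors.card ≤ D) (h2 : m.natAbs.divisors.card ≤ D) :
    ((univ : Finset (Wk κ (s + 1))).filter (fun w => n1 v w ∣ n ∧ m1 v w ∣ m)).card ≤
      Fintype.card κ * (4 * D ^ 2) ^ (s + 1) := by
  have hsub : (univ : Finset (Wk κ (s + 1))).filter (fun w => n1 v w ∣ n ∧ m1 v w ∣ m) ⊆
      (univ : Finset κ).biUnion fun x =>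
        (univ : Finset (Wk κ (s + 1))).filter (fun w => nn v (s + 1) x w ∣ n ∧ mm v (s + 1) x w ∣ m) := by
    intro w hw
    rw [mem_biUnion]
    exact ⟨lst s w.1.2 w.2, mem_univ _, mem_filter.2 ⟨mem_univ _, (mem_filter.1 hw).2⟩⟩
  refine (card_le_card hsub).trans (card_biUnion_le.trans ?_)
  calc _ ≤ ∑ _x : κ, (4 * D ^ 2) ^ (s + 1) := by
        refine sum_le_sum fun x _ => (walk_count v hv n m hn hm (s + 1) x).trans (Nat.pow_le_pow_left ?_ _)
        calc _ ≤ (2 * D) * (2 * D) := Nat.mul_le_mul (Nat.mul_le_mul_left _ h1) (Nat.mul_le_mul_left _ h2)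
          _ = _ := by ring
    _ = _ := by rw [sum_const, smul_eq_mul, card_univ]

omit [Fintype κ] [DecidableEq κ] in
theorem nn_abs (N : ℕ) (hN : ∀ x, |v x| ≤ N) (s : ℕ) : ∀ (x : κ) (w : Wk κ s), |nn v s x w| ≤ (2 * (N : ℤ)) ^ s := by
  induction s with
  | zero => intro x w; simp [nn]
  | succ s ih =>
    intro x w
    have h1 : |v x + v w.1.1| ≤ 2 * N := by
      have := abs_add_le (v x) (v w.1.1)
      have h2 := hN x
      have h3 := hN w.1.1
      linarith
    calc |nn v (s + 1) x w| = |v x + v w.1.1| * |nn v s w.1.2 w.2| := abs_mul _ _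
      _ ≤ (2 * N) * (2 * (N : ℤ)) ^ s := mul_le_mul h1 (ih _ _) (abs_nonneg _) (by positivity)
      _ = _ := by ring

omit [Fintype κ] [DecidableEq κ] in
theorem mm_abs (N : ℕ) (hN : ∀ x, |v x| ≤ N) (s : ℕ) : ∀ (x : κ) (w : Wk κ s), |mm v s x w| ≤ (2 * (N : ℤ)) ^ s := by
  induction s with
  | zero => intro x w; simp [mm]
  | succ s ih =>
    intro x w
    have h1 : |v w.1.2 + v w.1.1| ≤ 2 * N := by
      have := abs_add_le (v w.1.2) (v w.1.1)
      have h2 := hN w.1.2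
      have h3 := hN w.1.1
      linarith
    calc |mm v (s + 1) x w| = |v w.1.2 + v w.1.1| * |mm v s w.1.2 w.2| := abs_mul _ _
      _ ≤ (2 * N) * (2 * (N : ℤ)) ^ s := mul_le_mul h1 (ih _ _) (abs_nonneg _) (by positivity)
      _ = _ := by ring

open Classical in
/-- the closed walks whose labels are not zero -/
noncomputable def ZZ (s : ℕ) : Finset (Wk κ (s + 1)) := univ.filter fun w => n1 v w ≠ 0 ∧ m1 v w ≠ 0

omit [DecidableEq κ] in
open Classical in
/-- pairs with the same products -/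
theorem pairs_eq (hv : Function.Injective v) (N : ℕ) (hN : ∀ x, |v x| ≤ N) (s D : ℕ)
    (hD : ∀ n : ℕ, 0 < n → n ≤ (2 * N) ^ (s + 1) → n.divisors.card ≤ D) :
    ((ZZ v s ×ˢ ZZ v s).filter fun p => (n1 v p.1, m1 v p.1) = (n1 v p.2, m1 v p.2)).card ≤
      Fintype.card κ ^ (2 * (s + 1)) * (Fintype.card κ * (4 * D ^ 2) ^ (s + 1)) := by
  have hd : ∀ k : ℤ, k ≠ 0 → |k| ≤ (2 * (N : ℤ)) ^ (s + 1) → k.natAbs.divisors.card ≤ D := by
    intro k hk h
    apply hD _ (Int.natAbs_pos.2 hk)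
    have : ((k.natAbs : ℕ) : ℤ) ≤ (((2 * N) ^ (s + 1) : ℕ) : ℤ) := by
      rw [Int.natCast_natAbs]; push_cast; exact h
    exact_mod_cast this
  have e : ((ZZ v s ×ˢ ZZ v s).filter fun p => (n1 v p.1, m1 v p.1) = (n1 v p.2, m1 v p.2)) =
      (ZZ v s).biUnion fun w => ((ZZ v s).filter fun w' => (n1 v w, m1 v w) = (n1 v w', m1 v w')).image fun w' => (w, w') := by
    ext ⟨a, b⟩
    rw [mem_filter, mem_product, mem_biUnion]
    constructor
    · rintro ⟨⟨h1, h2⟩, h3⟩
      exact ⟨a, h1, mem_image.2 ⟨b, mem_filter.2 ⟨h2, h3⟩, rfl⟩⟩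
    · rintro ⟨c, hc, h⟩
      obtain ⟨d, hd1, hd2⟩ := mem_image.1 h
      obtain ⟨rfl, rfl⟩ := Prod.mk.inj hd2
      exact ⟨⟨hc, (mem_filter.1 hd1).1⟩, (mem_filter.1 hd1).2⟩
  rw [e]
  refine card_biUnion_le.trans ?_
  calc _ ≤ ∑ _w ∈ ZZ v s, Fintype.card κ * (4 * D ^ 2) ^ (s + 1) := by
        refine sum_le_sum fun w hw => card_image_le.trans ?_
        obtain ⟨h1, h2⟩ := (mem_filter.1 hw).2
        refine le_trans (card_le_card ?_) (closed_count v hv (n1 v w) (m1 v w) h1 h2 s D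
          (hd _ h1 (nn_abs v N hN _ _ _)) (hd _ h2 (mm_abs v N hN _ _ _)))
        intro w' hw'
        obtain ⟨h3, h4⟩ := mem_filter.1 hw'
        obtain ⟨h5, h6⟩ := Prod.mk.inj h4
        exact mem_filter.2 ⟨mem_univ _, by rw [← h5], by rw [← h6]⟩
    _ = (ZZ v s).card * _ := by rw [sum_const, smul_eq_mul]
    _ ≤ _ := by
        refine Nat.mul_le_mul_right _ ((card_filter_le _ _).trans ?_)
        rw [card_univ, card_Wk]

omit [DecidableEq κ] in
open Classical in
/-- pairs for which the product of all labels is a square -/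
theorem pairs_sq (hv : Function.Injective v) (N : ℕ) (hN : ∀ x, |v x| ≤ N) (s D : ℕ)
    (hD : ∀ n : ℕ, 0 < n → n ≤ (2 * N) ^ (4 * (s + 1)) → n.divisors.card ≤ D) :
    ((ZZ v s ×ˢ ZZ v s).filter fun p => IsSquare ((n1 v p.1 * m1 v p.1) * (n1 v p.2 * m1 v p.2))).card ≤
      (2 * N) ^ (2 * (s + 1)) * (Fintype.card κ * (4 * D ^ 2) ^ (s + 1)) ^ 2 := by
  set Y := (2 * N) ^ (2 * (s + 1)) with hY
  have hsub : ((ZZ v s ×ˢ ZZ v s).filter fun p => IsSquare ((n1 v p.1 * m1 v p.1) * (n1 v p.2 * m1 v p.2))) ⊆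
      (Icc 1 Y).biUnion fun y =>
        ((univ : Finset (Wk κ (s + 1))).filter (fun w => n1 v w ∣ (y : ℤ) ^ 2 ∧ m1 v w ∣ (y : ℤ) ^ 2)) ×ˢ
        ((univ : Finset (Wk κ (s + 1))).filter (fun w => n1 v w ∣ (y : ℤ) ^ 2 ∧ m1 v w ∣ (y : ℤ) ^ 2)) := by
    rintro ⟨w, w'⟩ h
    obtain ⟨h1, ⟨t, ht⟩⟩ := mem_filter.1 h
    obtain ⟨h2, h3⟩ := mem_product.1 h1
    obtain ⟨h4, h5⟩ := (mem_filter.1 h2).2
    obtain ⟨h6, h7⟩ := (mem_filter.1 h3).2
    simp only at ht h4 h5 h6 h7
    have ht2 : ((t.natAbs : ℕ) : ℤ) ^ 2 = n1 v w * m1 v w * (n1 v w' * m1 v w') := by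
      rw [ht, Int.natCast_natAbs, sq_abs]; ring
    have ht0 : t ≠ 0 := by
      rintro rfl
      simp only [mul_zero] at ht
      exact mul_ne_zero (mul_ne_zero h4 h5) (mul_ne_zero h6 h7) ht
    rw [mem_biUnion]
    refine ⟨t.natAbs, ?_, ?_⟩
    · rw [mem_Icc]
      refine ⟨Int.natAbs_pos.2 ht0, ?_⟩
      have h8 : ((t.natAbs : ℕ) : ℤ) ^ 2 ≤ (((2 * N) ^ (2 * (s + 1)) : ℕ) : ℤ) ^ 2 := by
        rw [ht2]
        refine (le_abs_self _).trans ?_
        rw [abs_mul, abs_mul, abs_mul]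
        have a1 := nn_abs v N hN (s + 1) (lst s w.1.2 w.2) w
        have a2 := mm_abs v N hN (s + 1) (lst s w.1.2 w.2) w
        have a3 := nn_abs v N hN (s + 1) (lst s w'.1.2 w'.2) w'
        have a4 := mm_abs v N hN (s + 1) (lst s w'.1.2 w'.2) w'
        calc |n1 v w| * |m1 v w| * (|n1 v w'| * |m1 v w'|) ≤ ((2 * (N : ℤ)) ^ (s + 1) * (2 * (N : ℤ)) ^ (s + 1)) *
              ((2 * (N : ℤ)) ^ (s + 1) * (2 * (N : ℤ)) ^ (s + 1)) := by
                refine mul_le_mul (mul_le_mul a1 a2 (abs_nonneg _) (by positivity)) (mul_le_mul a3 a4 (abs_nonneg _)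
                  (by positivity)) (by positivity) (by positivity)
          _ = _ := by push_cast; ring
      have h9 := abs_le_of_sq_le_sq h8 (by positivity)
      rw [abs_le] at h9
      exact_mod_cast h9.2
    · rw [mem_product, mem_filter, mem_filter, ht2]
      refine ⟨⟨mem_univ _, ⟨m1 v w * (n1 v w' * m1 v w'), by ring⟩, ⟨n1 v w * (n1 v w' * m1 v w'), by ring⟩⟩,
        ⟨mem_univ _, ⟨n1 v w * m1 v w * m1 v w', by ring⟩, ⟨n1 v w * m1 v w * n1 v w', by ring⟩⟩⟩
  refine (card_le_card hsub).trans (card_biUnion_le.trans ?_)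
  calc _ ≤ ∑ _y ∈ Icc 1 Y, (Fintype.card κ * (4 * D ^ 2) ^ (s + 1)) ^ 2 := by
        refine sum_le_sum fun y hy => ?_
        rw [mem_Icc] at hy
        have hy0 : ((y : ℤ) ^ 2) ≠ 0 := by
          have : (y : ℤ) ≠ 0 := by exact_mod_cast (by omega : y ≠ 0)
          exact pow_ne_zero 2 this
        have hyD : (((y : ℤ) ^ 2).natAbs).divisors.card ≤ D := by
          have e : ((y : ℤ) ^ 2).natAbs = y ^ 2 := by rw [Int.natAbs_pow, Int.natAbs_natCast]
          rw [e]
          apply hD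
          · exact pow_pos hy.1 2
          · calc y ^ 2 ≤ Y ^ 2 := Nat.pow_le_pow_left hy.2 2
              _ = _ := by rw [hY, ← pow_mul]; congr 1; ring
        have h := closed_count v hv _ _ hy0 hy0 s D hyD hyD
        rw [card_product]
        exact (Nat.mul_le_mul h h).trans (le_of_eq (sq _).symm)
    _ = _ := by rw [sum_const, smul_eq_mul, Nat.card_Icc, Nat.add_sub_cancel]

end

open Classical in
/-- Cauchy–Schwarz over the fibres -/
theorem fib_cs {Z G : Type} (S : Finset Z) (φ : Z → G) (T : G → ℂ) (GS : Finset G)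
    (hφ : ∀ z ∈ S, φ z ∈ GS) :
    ‖∑ z ∈ S, T (φ z)‖ ^ 2 ≤ (((S ×ˢ S).filter fun p => φ p.1 = φ p.2).card : ℝ) * ∑ g ∈ GS, ‖T g‖ ^ 2 := by
  have e1 : ∑ z ∈ S, T (φ z) = ∑ g ∈ GS, ((S.filter fun z => φ z = g).card : ℂ) * T g := by
    rw [← sum_fiberwise_of_maps_to hφ]
    refine sum_congr rfl fun g _ => ?_
    rw [sum_congr rfl (g := fun _ => T g) fun z hz => by rw [(mem_filter.1 hz).2], sum_const, nsmul_eq_mul]
  have e2 : (((S ×ˢ S).filter fun p => φ p.1 = φ p.2).card : ℝ) = ∑ g ∈ GS, ((S.filter fun z => φ z = g).card : ℝ) ^ 2 := by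
    have h1 : ((S ×ˢ S).filter fun p => φ p.1 = φ p.2).card = ∑ g ∈ GS, (S.filter fun z => φ z = g).card ^ 2 := by
      have hmaps : ∀ p ∈ (S ×ˢ S).filter (fun p => φ p.1 = φ p.2), φ p.1 ∈ GS := by
        intro p hp
        exact hφ _ (mem_product.1 (mem_filter.1 hp).1).1
      rw [card_eq_sum_card_fiberwise hmaps]
      refine sum_congr rfl fun g _ => ?_
      rw [sq, ← card_product]
      congr 1
      ext ⟨a, b⟩
      simp only [mem_filter, mem_product]
      constructor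
      · rintro ⟨⟨⟨h1, h2⟩, h3⟩, h4⟩
        exact ⟨⟨h1, h4⟩, ⟨h2, by rw [← h3]; exact h4⟩⟩
      · rintro ⟨⟨h1, h2⟩, ⟨h3, h4⟩⟩
        exact ⟨⟨⟨h1, h3⟩, by rw [h2, h4]⟩, h2⟩
    rw [h1]
    push_cast
    rfl
  rw [e1, e2]
  calc ‖∑ g ∈ GS, ((S.filter fun z => φ z = g).card : ℂ) * T g‖ ^ 2
      ≤ (∑ g ∈ GS, ((S.filter fun z => φ z = g).card : ℝ) * ‖T g‖) ^ 2 := by
        refine pow_le_pow_left₀ (norm_nonneg _) ?_ 2
        refine (norm_sum_le _ _).trans (sum_le_sum fun g _ => ?_)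
        rw [norm_mul, Complex.norm_natCast]
    _ ≤ _ := sum_mul_sq_le_sq_mul_sq _ _ _

end Pool.Agent.K1H93.PG
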