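import Pool.Agent.K1H93.PG.Quad
import Pool.Agent.H510R2.Div

/-!
# Short bilinear forms with characters: the choice of the parameters
-/

set_option autoImplicit false

namespace Pool.Agent.K1H93.PG

open Finset

theorem ev (C c : ℝ) (hc : 0 < c) : ∃ Q₀ : ℕ, 2 ≤ Q₀ ∧ ∀ Q : ℕ, Q₀ ≤ Q → C < (Q : ℝ) ^ c := by
  have h := (tendsto_rpow_atTop hc).comp tendsto_natCast_atTop_atTop
  obtain ⟨Q₀, h2⟩ := (h.eventually_gt_atTop C).exists_forall_of_atTop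
  exact ⟨max 2 Q₀, le_max_left _ _, fun Q hQ => h2 Q ((le_max_right _ _).trans hQ)⟩

/-- the divisor bound in the range needed -/
theorem div_D (η e : ℝ) (hη : 0 < η) (he : 0 < e) (M : ℕ) (hM : 1 ≤ M) : ∃ C : ℝ, 1 ≤ C ∧ ∀ Q : ℕ, 1 ≤ Q → ∃ D : ℕ,
    (∀ n : ℕ, 0 < n → n ≤ (2 * ⌊(Q : ℝ) ^ η⌋₊) ^ M → n.divisors.card ≤ D) ∧ (D : ℝ) ≤ C * (Q : ℝ) ^ e := by
  have hMr : (0 : ℝ) < M := by exact_mod_cast hM
  obtain ⟨C0, hC0, h0⟩ := Pool.Agent.H510R2.divisor_bound (e / (η * M)) (by positivity)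
  refine ⟨max 1 (C0 * ((2 : ℝ) ^ M) ^ (e / (η * M))), le_max_left _ _, fun Q hQ => ?_⟩
  have hq : (1 : ℝ) ≤ Q := by exact_mod_cast hQ
  have hq0 : (0 : ℝ) < Q := by linarith
  have e1 : C0 * ((2 * (Q : ℝ) ^ η) ^ M) ^ (e / (η * M)) = C0 * ((2 : ℝ) ^ M) ^ (e / (η * M)) * (Q : ℝ) ^ e := by
    have e2 : η * M * (e / (η * M)) = e := by field_simp
    rw [mul_pow, Real.mul_rpow (by positivity) (by positivity), ← Real.rpow_natCast ((Q : ℝ) ^ η) M,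
      ← Real.rpow_mul hq0.le, ← Real.rpow_mul hq0.le, e2, ← mul_assoc]
  refine ⟨⌊C0 * ((2 * (Q : ℝ) ^ η) ^ M) ^ (e / (η * M))⌋₊, fun n hn hnM => ?_, ?_⟩
  · apply Nat.le_floor
    refine (h0 n hn).trans (mul_le_mul_of_nonneg_left ?_ hC0.le)
    apply Real.rpow_le_rpow (Nat.cast_nonneg _) _ (by positivity)
    have h1 : (n : ℝ) ≤ ((2 * (⌊(Q : ℝ) ^ η⌋₊ : ℕ)) ^ M : ℕ) := by exact_mod_cast hnM
    refine h1.trans ?_
    push_cast
    exact pow_le_pow_left₀ (by positivity) (mul_le_mul_of_nonneg_left (Nat.floor_le (by positivity)) (by norm_num)) _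
  · refine (Nat.floor_le (by positivity)).trans ?_
    rw [e1]
    exact mul_le_mul_of_nonneg_right (le_max_right _ _) (by positivity)

theorem floor_facts (η : ℝ) (hη : 0 < η) (Q : ℕ) (hQ : 1 ≤ Q) :
    1 ≤ ⌊(Q : ℝ) ^ η⌋₊ ∧ ((⌊(Q : ℝ) ^ η⌋₊ : ℕ) : ℝ) ≤ (Q : ℝ) ^ η := by
  have hq : (1 : ℝ) ≤ Q := by exact_mod_cast hQ
  refine ⟨?_, Nat.floor_le (by positivity)⟩
  rw [Nat.one_le_floor_iff]
  exact Real.one_le_rpow hq hη.le

/-- characters of all orders -/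
theorem gen_final (η l e : ℝ) (s : ℕ) (hη : 0 < η) (he : 0 < e) (h1 : η * (2 * (s + 1) + 1) + 2 < 4 * (s + 1) * l) :
    ∃ Q₀ : ℕ, 2 ≤ Q₀ ∧ ∀ Q : ℕ, Q₀ ≤ Q →
    ∀ (B : Finset PC), (∀ p ∈ B, p.1.Prime ∧ p.1 ≤ Q ∧ p.2 ≠ 1) →
      (∀ p ∈ B, (Q : ℝ) ^ (2 * (s + 1) * l) ≤
        ‖∑ w : Wk (Icc (-((⌊(Q : ℝ) ^ η⌋₊ : ℕ) : ℤ)) ((⌊(Q : ℝ) ^ η⌋₊ : ℕ) : ℤ)) (s + 1),
          hh p.2 (n1 (vv ⌊(Q : ℝ) ^ η⌋₊) w) * star (hh p.2 (m1 (vv ⌊(Q : ℝ) ^ η⌋₊) w))‖) →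
      (B.card : ℝ) ≤ (Q : ℝ) ^ (η * (4 * (s + 1) + 1) - 4 * (s + 1) * l + e) := by
  obtain ⟨C, hC, hg⟩ := gen_count
  set r : ℝ := (s : ℝ) + 1 with hr
  have hr0 : 0 < r := by positivity
  obtain ⟨γ, hγ0, hγ1, hγ2⟩ : ∃ γ : ℝ, 0 < γ ∧ η * (2 * r + 1) + 2 + 4 * γ ≤ 4 * r * l ∧ 4 * γ ≤ e := by
    refine ⟨min ((4 * r * l - (η * (2 * r + 1) + 2)) / 4) (e / 4), ?_, ?_, ?_⟩
    · apply lt_min <;> linarith
    · have := min_le_left ((4 * r * l - (η * (2 * r + 1) + 2)) / 4) (e / 4)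
      linarith
    · have := min_le_right ((4 * r * l - (η * (2 * r + 1) + 2)) / 4) (e / 4)
      linarith
  obtain ⟨CD, hCD, hD⟩ := div_D η (γ / (2 * r)) hη (by positivity) (s + 1) (by omega)
  -- constants
  set K1 : ℝ := 3 ^ (2 * (s + 1)) * (3 * (4 * CD ^ 2) ^ (s + 1)) with hK1
  set K2 : ℝ := (3 * 2 ^ (s + 1)) ^ 2 with hK2
  set K3 : ℝ := (C * (1 / (γ / 2))) ^ 2 with hK3
  obtain ⟨Q₀, hQ02, hQ0⟩ := ev (K1 * K2 + K1 * K3) γ hγ0
  refine ⟨Q₀, hQ02, fun Q hQ B hB hbad => ?_⟩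
  have hQ2 : 2 ≤ Q := hQ02.trans hQ
  have hq1 : (1 : ℝ) ≤ Q := by exact_mod_cast (by omega : 1 ≤ Q)
  have hq0 : (0 : ℝ) < Q := by linarith
  set q : ℝ := (Q : ℝ) with hq
  obtain ⟨hN1, hN2⟩ := floor_facts η hη Q (by omega)
  set N := ⌊q ^ η⌋₊ with hN
  have hN1r : (1 : ℝ) ≤ N := by exact_mod_cast hN1
  by_contra hcon
  push Not at hcon
  have hb0 : (0 : ℝ) < B.card := lt_trans (by positivity) hcon
  obtain ⟨D, hD1, hD2⟩ := hD Q (by omega)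
  have h := hg Q N s D B (q ^ (2 * r * l)) hD1 hB (by positivity) hbad
  -- the number of the pairs
  have p1 : ((2 * (N : ℝ) + 1) ^ (2 * (s + 1)) * ((2 * N + 1) * (4 * (D : ℝ) ^ 2) ^ (s + 1))) ≤
      K1 * q ^ (η * (2 * r + 1) + γ) := by
    have a1 : 2 * (N : ℝ) + 1 ≤ 3 * q ^ η := by linarith
    calc _ ≤ (3 * q ^ η) ^ (2 * (s + 1)) * ((3 * q ^ η) * (4 * (CD * q ^ (γ / (2 * r))) ^ 2) ^ (s + 1)) := by
          gcongr
      _ = K1 * ((q ^ η) ^ (2 * (s + 1)) * q ^ η * ((q ^ (γ / (2 * r))) ^ (2 * (s + 1)))) := by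
          rw [hK1, mul_pow 3, mul_pow CD, ← mul_assoc 4, mul_pow (4 * CD ^ 2), ← pow_mul]
          ring
      _ = _ := by
          congr 1
          rw [← Real.rpow_natCast (q ^ η), ← Real.rpow_natCast (q ^ (γ / (2 * r))), ← Real.rpow_mul hq0.le,
            ← Real.rpow_mul hq0.le, ← Real.rpow_add hq0, ← Real.rpow_add hq0]
          congr 1
          push_cast
          rw [← hr]
          field_simp
  have p2 : (2 * (2 * (N : ℝ)) ^ (s + 1) + 1) ^ 2 ≤ K2 * q ^ (2 * r * η) := by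
    have a1 : 2 * (2 * (N : ℝ)) ^ (s + 1) + 1 ≤ 3 * 2 ^ (s + 1) * (q ^ η) ^ (s + 1) := by
      have a2 : (2 * (N : ℝ)) ^ (s + 1) ≤ 2 ^ (s + 1) * (q ^ η) ^ (s + 1) := by
        rw [← mul_pow]
        exact pow_le_pow_left₀ (by positivity) (by linarith) _
      have a3 : (1 : ℝ) ≤ (2 * (N : ℝ)) ^ (s + 1) := one_le_pow₀ (by linarith)
      linarith
    calc _ ≤ (3 * 2 ^ (s + 1) * (q ^ η) ^ (s + 1)) ^ 2 := pow_le_pow_left₀ (by positivity) a1 2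
      _ = K2 * (q ^ η) ^ (2 * (s + 1)) := by rw [hK2, mul_pow, ← pow_mul]; ring
      _ = _ := by
          congr 1
          rw [← Real.rpow_natCast (q ^ η), ← Real.rpow_mul hq0.le]
          congr 1
          push_cast
          rw [← hr]
          ring
  have p3 : (C * (q * Real.log q)) ^ 2 ≤ K3 * q ^ (2 + γ) := by
    have a1 : Real.log q ≤ q ^ (γ / 2) / (γ / 2) := Real.log_le_rpow_div hq0.le (by positivity)
    have a2 : 0 ≤ Real.log q := Real.log_nonneg hq1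
    calc _ ≤ (C * (q * (q ^ (γ / 2) / (γ / 2)))) ^ 2 := by gcongr
      _ = K3 * (q ^ (2 : ℕ) * (q ^ (γ / 2)) ^ (2 : ℕ)) := by rw [hK3]; ring
      _ = _ := by
          congr 1
          rw [← Real.rpow_natCast (q ^ (γ / 2)), ← Real.rpow_mul hq0.le, ← Real.rpow_natCast q,
            ← Real.rpow_add hq0]
          congr 1
          push_cast
          ring
  -- the contradiction
  obtain ⟨W, hW⟩ : ∃ W, W = η * (4 * r + 1) - 4 * r * l + e := ⟨_, rfl⟩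
  rw [← hW] at hcon
  set b : ℝ := (B.card : ℝ) with hb
  have h3 : (q ^ (2 * r * l) * b) ^ 2 ≤ K1 * q ^ (η * (2 * r + 1) + γ) *
      (b * (K2 * q ^ (2 * r * η)) + b ^ 2 * (K3 * q ^ (2 + γ))) := by
    refine h.trans (mul_le_mul p1 ?_ (by positivity) (by positivity))
    exact add_le_add (mul_le_mul_of_nonneg_left p2 hb0.le) (mul_le_mul_of_nonneg_left p3 (by positivity))
  have h4 : b * (K2 * q ^ (2 * r * η)) ≤ b ^ 2 * (K2 * q ^ (2 * r * η - W)) := by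
    have a1 : q ^ (2 * r * η) ≤ b * q ^ (2 * r * η - W) := by
      have a2 : q ^ W * q ^ (2 * r * η - W) = q ^ (2 * r * η) := by
        rw [← Real.rpow_add hq0]
        congr 1
        ring
      rw [← a2]
      exact mul_le_mul_of_nonneg_right hcon.le (by positivity)
    calc b * (K2 * q ^ (2 * r * η)) ≤ b * (K2 * (b * q ^ (2 * r * η - W))) := by gcongr
      _ = _ := by ring
  have h5 : (q ^ (2 * r * l)) ^ 2 * b ^ 2 ≤ (K1 * q ^ (η * (2 * r + 1) + γ) * (K2 * q ^ (2 * r * η - W) +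
      K3 * q ^ (2 + γ))) * b ^ 2 := by
    calc _ = (q ^ (2 * r * l) * b) ^ 2 := by ring
      _ ≤ _ := h3
      _ ≤ K1 * q ^ (η * (2 * r + 1) + γ) * (b ^ 2 * (K2 * q ^ (2 * r * η - W)) + b ^ 2 * (K3 * q ^ (2 + γ))) := by
          gcongr
      _ = _ := by ring
  have h6 := le_of_mul_le_mul_right h5 (by positivity)
  have h7 : (q ^ (2 * r * l)) ^ 2 = q ^ (4 * r * l) := by
    rw [← Real.rpow_natCast, ← Real.rpow_mul hq0.le]
    congr 1
    push_cast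
    ring
  rw [h7] at h6
  have h8 : K1 * q ^ (η * (2 * r + 1) + γ) * (K2 * q ^ (2 * r * η - W) + K3 * q ^ (2 + γ)) ≤
      (K1 * K2 + K1 * K3) * q ^ (4 * r * l - γ) := by
    have a1 : q ^ (η * (2 * r + 1) + γ) * q ^ (2 * r * η - W) ≤ q ^ (4 * r * l - γ) := by
      rw [← Real.rpow_add hq0]
      apply Real.rpow_le_rpow_of_exponent_le hq1
      rw [hW]
      linarith
    have a2 : q ^ (η * (2 * r + 1) + γ) * q ^ (2 + γ) ≤ q ^ (4 * r * l - γ) := by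
      rw [← Real.rpow_add hq0]
      apply Real.rpow_le_rpow_of_exponent_le hq1
      linarith
    have hK10 : 0 ≤ K1 * K2 := by positivity
    have hK20 : 0 ≤ K1 * K3 := by positivity
    calc _ = K1 * K2 * (q ^ (η * (2 * r + 1) + γ) * q ^ (2 * r * η - W)) +
          K1 * K3 * (q ^ (η * (2 * r + 1) + γ) * q ^ (2 + γ)) := by ring
      _ ≤ K1 * K2 * q ^ (4 * r * l - γ) + K1 * K3 * q ^ (4 * r * l - γ) :=
          add_le_add (mul_le_mul_of_nonneg_left a1 hK10) (mul_le_mul_of_nonneg_left a2 hK20)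
      _ = _ := by ring
  have h9 : (K1 * K2 + K1 * K3) * q ^ (4 * r * l - γ) < q ^ γ * q ^ (4 * r * l - γ) :=
    mul_lt_mul_of_pos_right (hQ0 Q hQ) (by positivity)
  rw [← Real.rpow_add hq0] at h9
  have h10 : γ + (4 * r * l - γ) = 4 * r * l := by ring
  rw [h10] at h9
  linarith

open Pool.Agent.R345.SS (J J_mul)

theorem J_zero {p : ℕ} (hp : p.Prime) : J 0 p = 0 := by
  unfold J
  have : Fact p.Prime := ⟨hp⟩
  rw [jacobiSym.zero_left hp.one_lt]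
  norm_num

/-- quadratic characters -/
theorem quad_final (η l : ℝ) (s k : ℕ) (hη : 0 < η) (h1 : (4 * (s + 1) - 2) * η ≤ k + 1)
    (h2 : 4 * (s + 1) * η * (k + 1) < 4 * (s + 1) * l * (k + 1) + 2 * s * η) :
    ∃ δ : ℝ, 0 < δ ∧ ∃ Q₀ : ℕ, 2 ≤ Q₀ ∧ ∀ Q : ℕ, Q₀ ≤ Q →
    ∀ (B : Finset ℕ), (∀ p ∈ B, p.Prime ∧ p ≠ 2 ∧ p ≤ Q) →
      (∀ p ∈ B, (Q : ℝ) ^ (2 * (s + 1) * l) ≤
        |∑ w : Wk (Icc (-((⌊(Q : ℝ) ^ η⌋₊ : ℕ) : ℤ)) ((⌊(Q : ℝ) ^ η⌋₊ : ℕ) : ℤ)) (s + 1),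
          J (n1 (vv ⌊(Q : ℝ) ^ η⌋₊) w) p * J (m1 (vv ⌊(Q : ℝ) ^ η⌋₊) w) p|) →
      (B.card : ℝ) ≤ (Q : ℝ) ^ (1 - δ) := by
  classical
  obtain ⟨C, hC, hg⟩ := quad_large
  set r : ℝ := (s : ℝ) + 1 with hr
  set K : ℝ := (k : ℝ) + 1 with hK
  have hr0 : 0 < r := by positivity
  have hK0 : 0 < K := by positivity
  obtain ⟨γ, hγ0, hγ1⟩ : ∃ γ : ℝ, 0 < γ ∧ 4 * r * η * K + 4 * γ ≤ 4 * r * l * K + 2 * s * η :=
    ⟨(4 * r * l * K + 2 * s * η - 4 * r * η * K) / 4, by linarith, by linarith⟩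
  obtain ⟨CD, hCD, hD⟩ := div_D η (γ / (4 * r)) hη (by positivity) (4 * (s + 1)) (by omega)
  -- constants
  set K1 : ℝ := 3 ^ (2 * (s + 1)) with hK1
  set K2 : ℝ := 2 ^ (2 * (s + 1)) * (3 * (4 * CD ^ 2) ^ (s + 1)) ^ 2 with hK2
  set g' : ℝ := γ / (2 * r * η) with hg'
  have hg'0 : 0 < g' := by positivity
  set K3 : ℝ := 2 ^ (2 * (s + 1)) * ((1 + 1 / g') * ((2 : ℝ) ^ (2 * (s + 1))) ^ g') with hK3
  set K4 : ℝ := 2 * K2 + K1 ^ 2 * (C * K3) with hK4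
  set K5 : ℝ := (K1 ^ k) ^ 2 * ((k + 1).factorial * K4) with hK5
  obtain ⟨Q₀, hQ02, hQ0⟩ := ev K5 γ hγ0
  refine ⟨γ / K, by positivity, Q₀, hQ02, fun Q hQ B hB hbad => ?_⟩
  have hQ2 : 2 ≤ Q := hQ02.trans hQ
  have hq1 : (1 : ℝ) ≤ Q := by exact_mod_cast (by omega : 1 ≤ Q)
  have hq0 : (0 : ℝ) < Q := by linarith
  have hK50 := hQ0 Q hQ
  have hgQ := hg (ι := Wk (Icc (-((⌊(Q : ℝ) ^ η⌋₊ : ℕ) : ℤ)) ((⌊(Q : ℝ) ^ η⌋₊ : ℕ) : ℤ)) (s + 1))
    (ZZ (vv ⌊(Q : ℝ) ^ η⌋₊) s)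
    (fun w => n1 (vv ⌊(Q : ℝ) ^ η⌋₊) w * m1 (vv ⌊(Q : ℝ) ^ η⌋₊) w) k Q
  set q : ℝ := (Q : ℝ) with hq
  obtain ⟨hN1, hN2⟩ := floor_facts η hη Q (by omega)
  set N := ⌊q ^ η⌋₊ with hN
  have hN1r : (1 : ℝ) ≤ N := by exact_mod_cast hN1
  obtain ⟨D, hD1, hD2⟩ := hD Q (by omega)
  by_contra hcon
  push Not at hcon
  have hb0 : (0 : ℝ) < B.card := lt_trans (by positivity) hcon
  have hZ : (((ZZ (vv N) s).card : ℕ) : ℝ) ≤ (2 * N + 1) ^ (2 * (s + 1)) := by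
    have a1 : (ZZ (vv N) s).card ≤ (2 * N + 1) ^ (2 * (s + 1)) := by
      refine (card_filter_le _ _).trans ?_
      rw [card_univ, card_Wk, card_vv]
    exact_mod_cast a1
  have hSq : ((((ZZ (vv N) s ×ˢ ZZ (vv N) s).filter fun p => IsSquare ((n1 (vv N) p.1 * m1 (vv N) p.1) *
      (n1 (vv N) p.2 * m1 (vv N) p.2))).card : ℕ) : ℝ) ≤
      (2 * N) ^ (2 * (s + 1)) * ((2 * N + 1) * (4 * (D : ℝ) ^ 2) ^ (s + 1)) ^ 2 := by
    have a1 := pairs_sq (vv N) (vv_inj N) N (vv_abs N) s D hD1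
    rw [card_vv] at a1
    have a2 := (Nat.cast_le (α := ℝ)).2 a1
    refine le_trans (le_of_eq (by congr)) (a2.trans (le_of_eq ?_))
    push_cast
    ring
  have hF : ∀ z ∈ ZZ (vv N) s, |((n1 (vv N) z * m1 (vv N) z : ℤ) : ℝ)| ≤ (2 * N) ^ (2 * (s + 1)) := by
    intro z _
    have a1 := nn_abs (vv N) N (vv_abs N) (s + 1) (lst s z.1.2 z.2) z
    have a2 := mm_abs (vv N) N (vv_abs N) (s + 1) (lst s z.1.2 z.2) z
    have a3 : |n1 (vv N) z * m1 (vv N) z| ≤ (2 * (N : ℤ)) ^ (2 * (s + 1)) := by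
      rw [abs_mul]
      calc |n1 (vv N) z| * |m1 (vv N) z| ≤ (2 * (N : ℤ)) ^ (s + 1) * (2 * (N : ℤ)) ^ (s + 1) :=
            mul_le_mul a1 a2 (abs_nonneg _) (by positivity)
        _ = _ := by ring
    exact_mod_cast a3
  have h := hgQ ((2 * N) ^ (2 * (s + 1))) ((2 * N + 1) ^ (2 * (s + 1)))
    ((2 * N) ^ (2 * (s + 1)) * ((2 * N + 1) * (4 * (D : ℝ) ^ 2) ^ (s + 1)) ^ 2) B (q ^ (2 * r * l))
    (one_le_pow₀ (by linarith)) hF hZ hSq hB (by positivity) (by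
      intro p hp
      refine (hbad p hp).trans (le_of_eq ?_)
      congr 1
      have e2 : ∑ w ∈ ZZ (vv N) s, J (n1 (vv N) w * m1 (vv N) w) p =
          ∑ w : Wk (Icc (-(N : ℤ)) N) (s + 1), J (n1 (vv N) w) p * J (m1 (vv N) w) p := by
        have e3 : ∑ w ∈ ZZ (vv N) s, J (n1 (vv N) w * m1 (vv N) w) p =
            ∑ w : Wk (Icc (-(N : ℤ)) N) (s + 1), J (n1 (vv N) w * m1 (vv N) w) p := by
          refine sum_subset (subset_univ _) fun w _ hw => ?_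
          have h3 : n1 (vv N) w = 0 ∨ m1 (vv N) w = 0 := by
            by_contra h4
            push Not at h4
            exact hw (mem_filter.2 ⟨mem_univ _, h4⟩)
          rcases h3 with h3 | h3
          · rw [h3, zero_mul, J_zero (hB p hp).1]
          · rw [h3, mul_zero, J_zero (hB p hp).1]
        rw [e3]
        exact sum_congr rfl fun w _ => J_mul _ _ _
      exact e2.symm)
  -- the sizes
  have p1 : ((2 * (N : ℝ) + 1) ^ (2 * (s + 1))) ≤ K1 * q ^ (2 * r * η) := by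
    have a1 : 2 * (N : ℝ) + 1 ≤ 3 * q ^ η := by linarith
    calc _ ≤ (3 * q ^ η) ^ (2 * (s + 1)) := by gcongr
      _ = K1 * (q ^ η) ^ (2 * (s + 1)) := by rw [hK1, mul_pow]
      _ = _ := by
          congr 1
          rw [← Real.rpow_natCast (q ^ η), ← Real.rpow_mul hq0.le]
          congr 1
          push_cast
          rw [← hr]
          ring
  have p2 : ((2 * (N : ℝ)) ^ (2 * (s + 1)) * ((2 * N + 1) * (4 * (D : ℝ) ^ 2) ^ (s + 1)) ^ 2) ≤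
      K2 * q ^ (η * (2 * r + 2) + γ) := by
    have a1 : 2 * (N : ℝ) + 1 ≤ 3 * q ^ η := by linarith
    have a2 : 2 * (N : ℝ) ≤ 2 * q ^ η := by linarith
    calc _ ≤ (2 * q ^ η) ^ (2 * (s + 1)) * ((3 * q ^ η) * (4 * (CD * q ^ (γ / (4 * r))) ^ 2) ^ (s + 1)) ^ 2 := by
          gcongr
      _ = K2 * ((q ^ η) ^ (2 * (s + 1)) * (q ^ η) ^ 2 * ((q ^ (γ / (4 * r))) ^ (4 * (s + 1)))) := by
          rw [hK2, mul_pow 2, mul_pow CD, ← mul_assoc 4, mul_pow (4 * CD ^ 2), ← pow_mul]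
          ring
      _ = _ := by
          congr 1
          rw [← Real.rpow_natCast (q ^ η), ← Real.rpow_natCast (q ^ η), ← Real.rpow_natCast (q ^ (γ / (4 * r))),
            ← Real.rpow_mul hq0.le, ← Real.rpow_mul hq0.le, ← Real.rpow_mul hq0.le, ← Real.rpow_add hq0,
            ← Real.rpow_add hq0]
          congr 1
          push_cast
          rw [← hr]
          field_simp
  have p3 : (C * (2 * (N : ℝ)) ^ (2 * (s + 1)) * (1 + Real.log ((2 * (N : ℝ)) ^ (2 * (s + 1))))) ≤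
      C * K3 * q ^ (2 * r * η + γ) := by
    set A : ℝ := (2 * (N : ℝ)) ^ (2 * (s + 1)) with hA
    have hA1 : 1 ≤ A := one_le_pow₀ (by linarith)
    have a1 : Real.log A ≤ A ^ g' / g' := Real.log_le_rpow_div (by linarith) hg'0
    have a2 : 1 ≤ A ^ g' := Real.one_le_rpow hA1 hg'0.le
    have a3 : 1 + Real.log A ≤ (1 + 1 / g') * A ^ g' := by
      have : (1 + 1 / g') * A ^ g' = A ^ g' + A ^ g' / g' := by ring
      linarith
    have a4 : A ≤ 2 ^ (2 * (s + 1)) * q ^ (2 * r * η) := by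
      calc A ≤ (2 * q ^ η) ^ (2 * (s + 1)) := by rw [hA]; gcongr
        _ = 2 ^ (2 * (s + 1)) * (q ^ η) ^ (2 * (s + 1)) := mul_pow _ _ _
        _ = _ := by
            congr 1
            rw [← Real.rpow_natCast (q ^ η), ← Real.rpow_mul hq0.le]
            congr 1
            push_cast
            rw [← hr]
            ring
    have a5 : A ^ g' ≤ ((2 : ℝ) ^ (2 * (s + 1))) ^ g' * q ^ γ := by
      calc A ^ g' ≤ (2 ^ (2 * (s + 1)) * q ^ (2 * r * η)) ^ g' := Real.rpow_le_rpow (by linarith) a4 hg'0.le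
        _ = _ := by
            rw [Real.mul_rpow (by positivity) (by positivity), ← Real.rpow_mul hq0.le]
            congr 2
            rw [hg']
            field_simp
    calc C * A * (1 + Real.log A) ≤ C * (2 ^ (2 * (s + 1)) * q ^ (2 * r * η)) *
          ((1 + 1 / g') * (((2 : ℝ) ^ (2 * (s + 1))) ^ g' * q ^ γ)) := by
          have : 0 ≤ 1 + Real.log A := by have := Real.log_nonneg hA1; linarith
          refine mul_le_mul (mul_le_mul_of_nonneg_left a4 hC.le) (a3.trans ?_) this (by positivity)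
          exact mul_le_mul_of_nonneg_left a5 (by positivity)
      _ = C * K3 * (q ^ (2 * r * η) * q ^ γ) := by rw [hK3]; ring
      _ = _ := by rw [← Real.rpow_add hq0]
  have p4 : (q ^ (k + 1) + 1) * ((2 * (N : ℝ)) ^ (2 * (s + 1)) * ((2 * N + 1) * (4 * (D : ℝ) ^ 2) ^ (s + 1)) ^ 2) +
      ((2 * (N : ℝ) + 1) ^ (2 * (s + 1))) ^ 2 * (C * (2 * (N : ℝ)) ^ (2 * (s + 1)) *
        (1 + Real.log ((2 * (N : ℝ)) ^ (2 * (s + 1))))) ≤ K4 * q ^ (K + η * (2 * r + 2) + γ) := by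
    have hA1 : (1 : ℝ) ≤ (2 * (N : ℝ)) ^ (2 * (s + 1)) := one_le_pow₀ (by linarith)
    have hl0 := Real.log_nonneg hA1
    have a1 : q ^ (k + 1) + 1 ≤ 2 * q ^ K := by
      have e : q ^ K = q ^ (k + 1) := by
        rw [hK, ← Real.rpow_natCast]
        push_cast
        rfl
      have : 1 ≤ q ^ (k + 1) := one_le_pow₀ hq1
      rw [e]
      linarith
    calc _ ≤ (2 * q ^ K) * (K2 * q ^ (η * (2 * r + 2) + γ)) + (K1 * q ^ (2 * r * η)) ^ 2 *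
          (C * K3 * q ^ (2 * r * η + γ)) := by
          refine add_le_add (mul_le_mul a1 p2 (by positivity) (by positivity)) (mul_le_mul
            (pow_le_pow_left₀ (by positivity) p1 2) p3 (by positivity) (by positivity))
      _ = 2 * K2 * (q ^ K * q ^ (η * (2 * r + 2) + γ)) + K1 ^ 2 * (C * K3) *
          ((q ^ (2 * r * η)) ^ 2 * q ^ (2 * r * η + γ)) := by ring
      _ ≤ 2 * K2 * q ^ (K + η * (2 * r + 2) + γ) + K1 ^ 2 * (C * K3) * q ^ (K + η * (2 * r + 2) + γ) := by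
          refine add_le_add (mul_le_mul_of_nonneg_left ?_ (by positivity)) (mul_le_mul_of_nonneg_left ?_ (by positivity))
          · rw [← Real.rpow_add hq0]
            apply Real.rpow_le_rpow_of_exponent_le hq1
            linarith
          · rw [← Real.rpow_natCast (q ^ (2 * r * η)), ← Real.rpow_mul hq0.le, ← Real.rpow_add hq0]
            apply Real.rpow_le_rpow_of_exponent_le hq1
            push_cast
            linarith
      _ = _ := by rw [hK4]; ring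
  -- the contradiction
  set b : ℝ := (B.card : ℝ) with hb
  have h3 : ((q ^ (2 * r * l) * b) ^ (k + 1)) ^ 2 ≤ ((K1 * q ^ (2 * r * η)) ^ k) ^ 2 * (b ^ (k + 1) *
      ((k + 1).factorial * (K4 * q ^ (K + η * (2 * r + 2) + γ)))) := by
    refine h.trans ?_
    refine mul_le_mul (pow_le_pow_left₀ (by positivity) (pow_le_pow_left₀ (by positivity) p1 _) _) ?_ ?_ (by positivity)
    · exact mul_le_mul_of_nonneg_left (mul_le_mul_of_nonneg_left p4 (by positivity)) (by positivity)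
    · have hA1 : (1 : ℝ) ≤ (2 * (N : ℝ)) ^ (2 * (s + 1)) := one_le_pow₀ (by linarith)
      have hl0 := Real.log_nonneg hA1
      positivity
  have h4 : ((q ^ (2 * r * l)) ^ (k + 1)) ^ 2 * b ^ (k + 1) * b ^ (k + 1) ≤ K5 * (((q ^ (2 * r * η)) ^ k) ^ 2 *
      q ^ (K + η * (2 * r + 2) + γ)) * b ^ (k + 1) := by
    calc _ = ((q ^ (2 * r * l) * b) ^ (k + 1)) ^ 2 := by rw [mul_pow]; ring
      _ ≤ _ := h3
      _ = _ := by rw [hK5, mul_pow K1]; ring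
  have h5 := le_of_mul_le_mul_right h4 (by positivity)
  have h6 : (q ^ (1 - γ / K)) ^ (k + 1) ≤ b ^ (k + 1) := pow_le_pow_left₀ (by positivity) hcon.le _
  have h7 : ((q ^ (2 * r * l)) ^ (k + 1)) ^ 2 * (q ^ (1 - γ / K)) ^ (k + 1) ≤ K5 * (((q ^ (2 * r * η)) ^ k) ^ 2 *
      q ^ (K + η * (2 * r + 2) + γ)) := (mul_le_mul_of_nonneg_left h6 (by positivity)).trans h5
  have h8 : ((q ^ (2 * r * l)) ^ (k + 1)) ^ 2 * (q ^ (1 - γ / K)) ^ (k + 1) = q ^ (4 * r * l * K + K - γ) := by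
    rw [← pow_mul, ← Real.rpow_natCast (q ^ (2 * r * l)), ← Real.rpow_natCast (q ^ (1 - γ / K)),
      ← Real.rpow_mul hq0.le, ← Real.rpow_mul hq0.le, ← Real.rpow_add hq0]
    congr 1
    push_cast
    rw [← hK]
    field_simp
    ring
  have h9 : ((q ^ (2 * r * η)) ^ k) ^ 2 * q ^ (K + η * (2 * r + 2) + γ) = q ^ (4 * r * η * (K - 1) + K +
      η * (2 * r + 2) + γ) := by
    rw [← pow_mul, ← Real.rpow_natCast (q ^ (2 * r * η)), ← Real.rpow_mul hq0.le, ← Real.rpow_add hq0]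
    congr 1
    push_cast
    rw [hK]
    ring
  rw [h8, h9] at h7
  have h10 : q ^ γ * q ^ (4 * r * η * (K - 1) + K + η * (2 * r + 2) + γ) ≤ q ^ (4 * r * l * K + K - γ) := by
    rw [← Real.rpow_add hq0]
    apply Real.rpow_le_rpow_of_exponent_le hq1
    have e : 2 * (s : ℝ) * η = 2 * r * η - 2 * η := by rw [hr]; ring
    rw [e] at hγ1
    linarith
  have h11 : K5 * q ^ (4 * r * η * (K - 1) + K + η * (2 * r + 2) + γ) < q ^ γ * q ^ (4 * r * η * (K - 1) + K +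
      η * (2 * r + 2) + γ) := mul_lt_mul_of_pos_right hK50 (by positivity)
  linarith

end Pool.Agent.K1H93.PG
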