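import Pool.Agent.K1H93.PG.Cnt
import Pool.Agent.H38R2.CG.PV

/-!
# Short bilinear forms with characters: the large sieve for the characters of different prime moduli
-/

set_option autoImplicit false

namespace Pool.Agent.K1H93.PG

open Finset
open scoped ComplexOrder

/-- the values at the integers -/
noncomputable def hh {p : ℕ} (χ : DirichletCharacter ℂ p) (n : ℤ) : ℂ := χ (n : ZMod p)

theorem hh_one {p : ℕ} (χ : DirichletCharacter ℂ p) : hh χ 1 = 1 := by
  unfold hh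
  rw [Int.cast_one, map_one]

theorem hh_mul {p : ℕ} (χ : DirichletCharacter ℂ p) (x y : ℤ) : hh χ (x * y) = hh χ x * hh χ y := by
  unfold hh
  rw [Int.cast_mul, map_mul]

theorem hh_zero {p : ℕ} (hp : p.Prime) (χ : DirichletCharacter ℂ p) : hh χ 0 = 0 := by
  unfold hh
  have : Fact p.Prime := ⟨hp⟩
  rw [Int.cast_zero]
  exact MulChar.map_zero χ

theorem hh_norm {p : ℕ} (χ : DirichletCharacter ℂ p) (x : ℤ) : ‖hh χ x‖ ≤ 1 := DirichletCharacter.norm_le_one _ _

theorem sum_sym (g : ℤ → ℂ) (c : ℂ) (hg : ∀ n : ℤ, g (-n) = c * g n) (h0 : g 0 = 0) (X : ℕ) :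
    ∑ n ∈ Icc (-(X : ℤ)) X, g n = (1 + c) * ∑ n ∈ Ioc 0 X, g (n : ℤ) := by
  induction X with
  | zero => simp [h0]
  | succ X ih =>
    have e : Icc (-((X + 1 : ℕ) : ℤ)) ((X + 1 : ℕ) : ℤ) =
        insert ((X + 1 : ℕ) : ℤ) (insert (-((X + 1 : ℕ) : ℤ)) (Icc (-(X : ℤ)) X)) := by
      ext n
      simp only [mem_insert, mem_Icc]
      push_cast
      omega
    have e2 : Ioc 0 (X + 1) = insert (X + 1) (Ioc 0 X) := by
      ext n
      simp only [mem_insert, mem_Ioc]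
      omega
    rw [e, sum_insert, sum_insert, ih, e2, sum_insert, hg]
    · ring
    · simp
    · simp only [mem_Icc]; push_cast; omega
    · simp only [mem_insert, mem_Icc]; push_cast; omega

/-- the product of two characters of different prime moduli -/
theorem prod_char {p q : ℕ} (hp : p.Prime) (hq : q.Prime) (hpq : p ≠ q) (χ : DirichletCharacter ℂ p)
    (ψ : DirichletCharacter ℂ q) (hχ : χ ≠ 1) :
    ∃ θ : DirichletCharacter ℂ (p * q), θ ≠ 1 ∧ ∀ n : ℕ, θ (n : ZMod (p * q)) = hh χ n * star (hh ψ n) := by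
  have hcop : p.Coprime q := (Nat.coprime_primes hp hq).2 hpq
  have : Fact p.Prime := ⟨hp⟩
  have : Fact q.Prime := ⟨hq⟩
  have : NeZero (p * q) := ⟨Nat.mul_ne_zero hp.ne_zero hq.ne_zero⟩
  set θ : DirichletCharacter ℂ (p * q) := DirichletCharacter.changeLevel (Dvd.intro _ rfl) χ *
    (DirichletCharacter.changeLevel (Dvd.intro_left _ rfl) ψ)⁻¹ with hθ
  have hval : ∀ n : ℕ, θ (n : ZMod (p * q)) = hh χ n * star (hh ψ n) := by
    intro n
    by_cases hn : n.Coprime (p * q)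
    · have hu : IsUnit (n : ZMod (p * q)) := (ZMod.isUnit_iff_coprime n (p * q)).2 hn
      have h1 : (DirichletCharacter.changeLevel (Dvd.intro _ rfl : p ∣ p * q) χ) (n : ZMod (p * q)) = χ (n : ZMod p) := by
        have := DirichletCharacter.changeLevel_eq_cast_of_dvd χ (Dvd.intro _ rfl : p ∣ p * q) hu.unit
        rw [IsUnit.unit_spec] at this
        rw [this]
        congr 1
        exact ZMod.cast_natCast (Dvd.intro _ rfl) n
      have h2 : (DirichletCharacter.changeLevel (Dvd.intro_left _ rfl : q ∣ p * q) ψ) (n : ZMod (p * q)) = ψ (n : ZMod q) := by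
        have := DirichletCharacter.changeLevel_eq_cast_of_dvd ψ (Dvd.intro_left _ rfl : q ∣ p * q) hu.unit
        rw [IsUnit.unit_spec] at this
        rw [this]
        congr 1
        exact ZMod.cast_natCast (Dvd.intro_left _ rfl) n
      have h3 : ‖ψ (n : ZMod q)‖ = 1 := by
        have hnq : n.Coprime q := Nat.Coprime.coprime_dvd_right (Dvd.intro_left _ rfl) hn
        have := (ZMod.isUnit_iff_coprime n q).2 hnq
        rw [← this.unit_spec]
        exact ψ.unit_norm_eq_one this.unit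
      rw [hθ, MulChar.mul_apply, h1, MulChar.inv_apply_eq_inv', h2]
      unfold hh
      rw [Int.cast_natCast, Int.cast_natCast]
      congr 1
      rw [Complex.inv_def, Complex.normSq_eq_norm_sq, h3]
      simp
    · have h1 : θ (n : ZMod (p * q)) = 0 := by
        apply MulChar.map_nonunit
        rwa [ZMod.isUnit_iff_coprime]
      rw [h1]
      have h2 : ¬ n.Coprime p ∨ ¬ n.Coprime q := by
        by_contra h
        push Not at h
        exact hn (Nat.Coprime.mul_right h.1 h.2)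
      rcases h2 with h | h
      · have : hh χ n = 0 := by
          unfold hh
          apply MulChar.map_nonunit
          rw [Int.cast_natCast]
          rwa [ZMod.isUnit_iff_coprime]
        rw [this, zero_mul]
      · have : hh ψ n = 0 := by
          unfold hh
          apply MulChar.map_nonunit
          rw [Int.cast_natCast]
          rwa [ZMod.isUnit_iff_coprime]
        rw [this, star_zero, mul_zero]
  refine ⟨θ, ?_, hval⟩
  intro h
  apply hχ
  ext u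
  rw [MulChar.one_apply_coe]
  obtain ⟨n, hn1, hn2⟩ := Nat.chineseRemainder hcop (u : ZMod p).val 1
  have e1 : ((n : ℕ) : ZMod p) = u := by
    have := (ZMod.natCast_eq_natCast_iff _ _ _).2 hn1
    rw [this, ZMod.natCast_zmod_val]
  have e2 : ((n : ℕ) : ZMod q) = 1 := by
    have := (ZMod.natCast_eq_natCast_iff _ _ _).2 hn2
    rw [this, Nat.cast_one]
  have h3 := hval n
  have hu : IsUnit ((n : ℕ) : ZMod (p * q)) := by
    rw [ZMod.isUnit_iff_coprime]
    refine Nat.Coprime.mul_right ?_ ?_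
    · rw [← ZMod.isUnit_iff_coprime, e1]; exact u.isUnit
    · rw [← ZMod.isUnit_iff_coprime, e2]; exact isUnit_one
  rw [h, MulChar.one_apply hu] at h3
  unfold hh at h3
  rw [Int.cast_natCast, Int.cast_natCast, e1, e2, map_one, star_one, mul_one] at h3
  exact h3.symm

/-- the correlations of the characters -/
theorem corr_le : ∃ C : ℝ, 0 < C ∧ ∀ (Q X p q : ℕ) (χ : DirichletCharacter ℂ p) (ψ : DirichletCharacter ℂ q),
    p.Prime → q.Prime → p ≠ q → p ≤ Q → q ≤ Q → χ ≠ 1 →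
      ‖∑ n ∈ Icc (-(X : ℤ)) X, hh χ n * star (hh ψ n)‖ ≤ C * (Q * Real.log Q) := by
  obtain ⟨C, hC, h⟩ := Pool.Agent.H38R2.CG.T_PV
  refine ⟨4 * C, by positivity, fun Q X p q χ ψ hp hq hpq hpQ hqQ hχ => ?_⟩
  obtain ⟨θ, hθ, hval⟩ := prod_char hp hq hpq χ ψ hχ
  have hpq4 : 4 ≤ p * q := by
    have := hp.two_le
    have := hq.two_le
    nlinarith
  have h1 := h (p * q) θ (by omega) hθ 0 X
  have h2 : ∑ n ∈ Ioc 0 X, θ (n : ZMod (p * q)) = ∑ n ∈ Ioc 0 X, hh χ n * star (hh ψ n) :=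
    sum_congr rfl fun n _ => hval n
  rw [h2] at h1
  have h3 := sum_sym (fun n => hh χ n * star (hh ψ n)) (hh χ (-1) * star (hh ψ (-1))) (by
    intro n
    have e : -n = (-1) * n := by ring
    rw [e, hh_mul, hh_mul, star_mul']
    ring) (by rw [hh_zero hp, zero_mul]) X
  rw [h3, norm_mul]
  have h4 : ‖1 + hh χ (-1) * star (hh ψ (-1))‖ ≤ 2 := by
    refine (norm_add_le _ _).trans ?_
    rw [norm_one, norm_mul, norm_star]
    have := mul_le_mul (hh_norm χ (-1)) (hh_norm ψ (-1)) (norm_nonneg _) zero_le_one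
    linarith
  have hQ2 : (2 : ℝ) ≤ Q := by exact_mod_cast hp.two_le.trans hpQ
  have h5 : √((p * q : ℕ) : ℝ) ≤ Q := by
    rw [Real.sqrt_le_left (by positivity)]
    push_cast
    rw [sq]
    exact mul_le_mul (by exact_mod_cast hpQ) (by exact_mod_cast hqQ) (by positivity) (by positivity)
  have h6 : Real.log ((p * q : ℕ) : ℝ) ≤ 2 * Real.log Q := by
    have : Real.log ((p * q : ℕ) : ℝ) ≤ Real.log ((Q : ℝ) ^ 2) := by
      apply Real.log_le_log
      · exact_mod_cast (by omega : 0 < p * q)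
      · push_cast
        rw [sq]
        exact mul_le_mul (by exact_mod_cast hpQ) (by exact_mod_cast hqQ) (by positivity) (by positivity)
    rw [Real.log_pow] at this
    exact_mod_cast this
  have h7 : 0 ≤ Real.log ((p * q : ℕ) : ℝ) := Real.log_nonneg (by exact_mod_cast (by omega : 1 ≤ p * q))
  calc _ ≤ 2 * (C * √((p * q : ℕ) : ℝ) * Real.log ((p * q : ℕ) : ℝ)) := mul_le_mul h4 h1 (norm_nonneg _) (by norm_num)
    _ ≤ 2 * (C * Q * (2 * Real.log Q)) := by gcongr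
    _ = _ := by ring

/-- a prime modulus and a character -/
abbrev PC : Type := Σ p : ℕ, DirichletCharacter ℂ p

/-- the correlations of different characters of prime moduli -/
theorem corr_le' : ∃ C : ℝ, 0 < C ∧ ∀ (Q X : ℕ) (i j : PC), i.1.Prime → j.1.Prime → i ≠ j → i.1 ≤ Q → j.1 ≤ Q →
    i.2 ≠ 1 → ‖∑ n ∈ Icc (-(X : ℤ)) X, hh i.2 n * star (hh j.2 n)‖ ≤ C * (Q * Real.log Q) := by
  obtain ⟨C₁, hC₁, h1⟩ := corr_le
  obtain ⟨C, hC, h⟩ := Pool.Agent.H38R2.CG.T_PV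
  refine ⟨C₁ + 2 * C, by positivity, ?_⟩
  rintro Q X ⟨p, χ⟩ ⟨q, ψ⟩ hp hq hij hpQ hqQ hχ
  have hQ2 : (2 : ℝ) ≤ Q := by exact_mod_cast hp.two_le.trans hpQ
  have hQl : 0 ≤ Real.log Q := Real.log_nonneg (by linarith)
  by_cases hpq : p = q
  · subst hpq
    simp only at hp hpQ hχ ⊢
    have hne : χ * ψ⁻¹ ≠ 1 := by
      intro he
      apply hij
      rw [mul_inv_eq_one.1 he]
    have hval : ∀ n : ℕ, (χ * ψ⁻¹) (n : ZMod p) = hh χ n * star (hh ψ n) := by
      intro n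
      unfold hh
      rw [MulChar.mul_apply, MulChar.inv_apply_eq_inv', Int.cast_natCast]
      by_cases hu : IsUnit (n : ZMod p)
      · have h3 : ‖ψ (n : ZMod p)‖ = 1 := by
          rw [← hu.unit_spec]
          exact ψ.unit_norm_eq_one hu.unit
        congr 1
        rw [Complex.inv_def, Complex.normSq_eq_norm_sq, h3]
        simp
      · rw [MulChar.map_nonunit _ hu, zero_mul, zero_mul]
    have h2 := h p (χ * ψ⁻¹) hp.two_le hne 0 X
    rw [sum_congr rfl fun n _ => hval n] at h2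
    have h3 := sum_sym (fun n => hh χ n * star (hh ψ n)) (hh χ (-1) * star (hh ψ (-1))) (by
      intro n
      have e : -n = (-1) * n := by ring
      rw [e, hh_mul, hh_mul, star_mul']
      ring) (by rw [hh_zero hp, zero_mul]) X
    rw [h3, norm_mul]
    have h4 : ‖1 + hh χ (-1) * star (hh ψ (-1))‖ ≤ 2 := by
      refine (norm_add_le _ _).trans ?_
      rw [norm_one, norm_mul, norm_star]
      have := mul_le_mul (hh_norm χ (-1)) (hh_norm ψ (-1)) (norm_nonneg _) zero_le_one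
      linarith
    have hp1 : (1 : ℝ) ≤ p := by exact_mod_cast hp.one_lt.le
    have hpQ' : (p : ℝ) ≤ Q := by exact_mod_cast hpQ
    have h5 : √(p : ℝ) ≤ Q := by
      rw [Real.sqrt_le_left (by positivity)]
      nlinarith
    have h6 : Real.log (p : ℝ) ≤ Real.log Q := Real.log_le_log (by linarith) hpQ'
    have h7 : 0 ≤ Real.log (p : ℝ) := Real.log_nonneg hp1
    calc _ ≤ 2 * (C * √(p : ℝ) * Real.log p) := mul_le_mul h4 h2 (norm_nonneg _) (by norm_num)
      _ ≤ 2 * (C * Q * Real.log Q) := by gcongr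
      _ ≤ (C₁ + 2 * C) * (Q * Real.log Q) := by
        have : 0 ≤ C₁ * (Q * Real.log Q) := by positivity
        linarith
  · refine (h1 Q X p q χ ψ hp hq hpq hpQ hqQ hχ).trans ?_
    have : 0 ≤ 2 * C * (Q * Real.log Q) := by positivity
    linarith

/-- the mean square -/
theorem mean_sq : ∃ C : ℝ, 0 < C ∧ ∀ (Q X : ℕ) (B : Finset PC) (c : PC → ℂ),
    (∀ p ∈ B, p.1.Prime ∧ p.1 ≤ Q ∧ p.2 ≠ 1) → (∀ p, ‖c p‖ ≤ 1) →
      ∑ g ∈ Icc (-(X : ℤ)) X ×ˢ Icc (-(X : ℤ)) X, ‖∑ p ∈ B, c p * (hh p.2 g.1 * star (hh p.2 g.2))‖ ^ 2 ≤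
        B.card * (2 * X + 1) ^ 2 + (B.card : ℝ) ^ 2 * (C * (Q * Real.log Q)) ^ 2 := by
  classical
  obtain ⟨C, hC, h⟩ := corr_le'
  refine ⟨C, hC, fun Q X B c hB hc => ?_⟩
  set I := Icc (-(X : ℤ)) X with hI
  set K : PC → PC → ℂ := fun p q => ∑ n ∈ I, hh p.2 n * star (hh q.2 n) with hK
  have e1 : ((∑ g ∈ I ×ˢ I, ‖∑ p ∈ B, c p * (hh p.2 g.1 * star (hh p.2 g.2))‖ ^ 2 : ℝ) : ℂ) =
      ∑ p ∈ B, ∑ q ∈ B, c p * star (c q) * (K p q * star (K p q)) := by
    push_cast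
    rw [sum_product]
    have e2 : ∀ n ∈ I, ∀ m ∈ I, ((‖∑ p ∈ B, c p * (hh p.2 n * star (hh p.2 m))‖ : ℂ)) ^ 2 =
        ∑ p ∈ B, ∑ q ∈ B, c p * star (c q) * ((hh p.2 n * star (hh q.2 n)) *
          (star (hh p.2 m) * hh q.2 m)) := by
      intro n _ m _
      rw [← Complex.mul_conj', ← RCLike.star_def, star_sum, sum_mul_sum]
      refine sum_congr rfl fun p _ => sum_congr rfl fun q _ => ?_
      rw [star_mul', star_mul', star_star]
      ring
    rw [sum_congr rfl fun n hn => sum_congr rfl fun m hm => e2 n hn m hm]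
    have e3 : ∀ p q, K p q * star (K p q) = ∑ n ∈ I, ∑ m ∈ I, (hh p.2 n * star (hh q.2 n)) *
          (star (hh p.2 m) * hh q.2 m) := by
      intro p q
      rw [hK]
      rw [star_sum, sum_mul_sum]
      refine sum_congr rfl fun n _ => sum_congr rfl fun m _ => ?_
      rw [star_mul', star_star]
    simp only [e3, mul_sum]
    calc _ = ∑ n ∈ I, ∑ p ∈ B, ∑ m ∈ I, ∑ q ∈ B, c p * star (c q) * ((hh p.2 n * star (hh q.2 n)) *
          (star (hh p.2 m) * hh q.2 m)) := sum_congr rfl fun n _ => sum_comm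
      _ = ∑ p ∈ B, ∑ n ∈ I, ∑ m ∈ I, ∑ q ∈ B, c p * star (c q) * ((hh p.2 n * star (hh q.2 n)) *
          (star (hh p.2 m) * hh q.2 m)) := sum_comm
      _ = ∑ p ∈ B, ∑ n ∈ I, ∑ q ∈ B, ∑ m ∈ I, c p * star (c q) * ((hh p.2 n * star (hh q.2 n)) *
          (star (hh p.2 m) * hh q.2 m)) := sum_congr rfl fun p _ => sum_congr rfl fun n _ => sum_comm
      _ = _ := sum_congr rfl fun p _ => sum_comm
  have e4 : ∑ g ∈ I ×ˢ I, ‖∑ p ∈ B, c p * (hh p.2 g.1 * star (hh p.2 g.2))‖ ^ 2 ≤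
      ∑ p ∈ B, ∑ q ∈ B, ‖K p q‖ ^ 2 := by
    have h0 : 0 ≤ ∑ g ∈ I ×ˢ I, ‖∑ p ∈ B, c p * (hh p.2 g.1 * star (hh p.2 g.2))‖ ^ 2 :=
      sum_nonneg fun _ _ => by positivity
    have h1 := congrArg (fun z : ℂ => ‖z‖) e1
    rw [Complex.norm_real, Real.norm_of_nonneg h0] at h1
    rw [h1]
    refine (norm_sum_le _ _).trans (sum_le_sum fun p _ => (norm_sum_le _ _).trans (sum_le_sum fun q _ => ?_))
    rw [norm_mul, norm_mul, norm_mul, norm_star, norm_star, ← sq]
    have := mul_le_mul (hc p) (hc q) (norm_nonneg _) zero_le_one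
    calc ‖c p‖ * ‖c q‖ * ‖K p q‖ ^ 2 ≤ 1 * ‖K p q‖ ^ 2 := mul_le_mul_of_nonneg_right (by linarith) (by positivity)
      _ = _ := one_mul _
  refine e4.trans ?_
  have hIc : (I.card : ℝ) = 2 * X + 1 := by
    rw [hI, Int.card_Icc]
    have : ((X : ℤ) + 1 - -(X : ℤ)).toNat = 2 * X + 1 := by omega
    rw [this]
    push_cast
    ring
  have h5 : ∀ p ∈ B, ∀ q ∈ B, ‖K p q‖ ^ 2 ≤ (if p = q then (2 * (X : ℝ) + 1) ^ 2 else 0) + (C * (Q * Real.log Q)) ^ 2 := by
    intro p hp q hq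
    by_cases hpq : p = q
    · rw [if_pos hpq]
      have h6 : ‖K p q‖ ≤ 2 * X + 1 := by
        rw [hK]
        refine (norm_sum_le _ _).trans ?_
        calc _ ≤ ∑ n ∈ I, (1 : ℝ) := by
              refine sum_le_sum fun n _ => ?_
              rw [norm_mul, norm_star]
              exact mul_le_one₀ (hh_norm _ _) (norm_nonneg _) (hh_norm _ _)
          _ = _ := by rw [sum_const, nsmul_eq_mul, mul_one, hIc]
      have h7 := pow_le_pow_left₀ (norm_nonneg _) h6 2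
      have h8 : 0 ≤ (C * (Q * Real.log Q)) ^ 2 := sq_nonneg _
      linarith
    · rw [if_neg hpq, zero_add]
      exact pow_le_pow_left₀ (norm_nonneg _) (h Q X p q (hB p hp).1 (hB q hq).1 hpq (hB p hp).2.1
        (hB q hq).2.1 (hB p hp).2.2) 2
  calc _ ≤ ∑ p ∈ B, ∑ q ∈ B, ((if p = q then (2 * (X : ℝ) + 1) ^ 2 else 0) + (C * (Q * Real.log Q)) ^ 2) :=
        sum_le_sum fun p hp => sum_le_sum fun q hq => h5 p hp q hq
    _ = _ := by
        have e6 : ∀ p ∈ B, ∑ q ∈ B, ((if p = q then (2 * (X : ℝ) + 1) ^ 2 else 0) + (C * (Q * Real.log Q)) ^ 2) =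
            (2 * (X : ℝ) + 1) ^ 2 + B.card * (C * (Q * Real.log Q)) ^ 2 := by
          intro p hp
          rw [sum_add_distrib, sum_ite_eq, if_pos hp, sum_const, nsmul_eq_mul]
        rw [sum_congr rfl e6, sum_const, nsmul_eq_mul]
        ring

/-- the integers from `-N` to `N` -/
def vv (N : ℕ) : Icc (-(N : ℤ)) N → ℤ := fun x => x.1

theorem vv_inj (N : ℕ) : Function.Injective (vv N) := Subtype.val_injective

theorem vv_abs (N : ℕ) (x : Icc (-(N : ℤ)) N) : |vv N x| ≤ N := abs_le.2 (mem_Icc.1 x.2)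

theorem card_vv (N : ℕ) : Fintype.card (Icc (-(N : ℤ)) N) = 2 * N + 1 := by
  rw [Fintype.card_coe, Int.card_Icc]
  omega

/-- the number of the bad primes -/
theorem gen_count : ∃ C : ℝ, 0 < C ∧ ∀ (Q N s D : ℕ) (B : Finset PC) (Λ : ℝ),
    (∀ n : ℕ, 0 < n → n ≤ (2 * N) ^ (s + 1) → n.divisors.card ≤ D) →
    (∀ p ∈ B, p.1.Prime ∧ p.1 ≤ Q ∧ p.2 ≠ 1) → 0 ≤ Λ →
    (∀ p ∈ B, Λ ≤ ‖∑ w : Wk (Icc (-(N : ℤ)) N) (s + 1), hh p.2 (n1 (vv N) w) *
      star (hh p.2 (m1 (vv N) w))‖) →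
      (Λ * B.card) ^ 2 ≤ ((2 * N + 1) ^ (2 * (s + 1)) * ((2 * N + 1) * (4 * (D : ℝ) ^ 2) ^ (s + 1))) *
        (B.card * (2 * (2 * (N : ℝ)) ^ (s + 1) + 1) ^ 2 + (B.card : ℝ) ^ 2 * (C * (Q * Real.log Q)) ^ 2) := by
  classical
  obtain ⟨C, hC, h⟩ := mean_sq
  refine ⟨C, hC, fun Q N s D B Λ hD hB hΛ hbad => ?_⟩
  obtain ⟨v, hv⟩ : ∃ v, v = vv N := ⟨_, rfl⟩
  have hvi : Function.Injective v := hv ▸ vv_inj N
  have hvN : ∀ x, |v x| ≤ N := hv ▸ vv_abs N
  rw [← hv] at hbad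
  set Tr : PC → ℂ := fun p => ∑ w : Wk (Icc (-(N : ℤ)) N) (s + 1), hh p.2 (n1 v w) * star (hh p.2 (m1 v w)) with hTr
  set c : PC → ℂ := fun p => if Tr p = 0 then 1 else star (Tr p) / ‖Tr p‖ with hc
  have hc1 : ∀ p, ‖c p‖ ≤ 1 := by
    intro p
    rw [hc]
    simp only
    split_ifs with h0
    · simp
    · rw [norm_div, norm_star, Complex.norm_real, norm_norm, div_self (norm_ne_zero_iff.2 h0)]
  have hc2 : ∀ p, c p * Tr p = (‖Tr p‖ : ℂ) := by
    intro p
    rw [hc]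
    simp only
    split_ifs with h0
    · rw [h0]; simp
    · rw [div_mul_eq_mul_div, RCLike.star_def, Complex.conj_mul', sq, mul_div_assoc, div_self, mul_one]
      exact_mod_cast norm_ne_zero_iff.2 h0
  set X := (2 * N) ^ (s + 1) with hX
  set T : ℤ × ℤ → ℂ := fun g => ∑ p ∈ B, c p * (hh p.2 g.1 * star (hh p.2 g.2)) with hT
  have e1 : ((∑ p ∈ B, ‖Tr p‖ : ℝ) : ℂ) = ∑ w ∈ ZZ v s, T (n1 v w, m1 v w) := by
    push_cast
    rw [← sum_congr rfl fun p _ => hc2 p]
    have e2 : ∑ w ∈ ZZ v s, T (n1 v w, m1 v w) = ∑ w : Wk (Icc (-(N : ℤ)) N) (s + 1), T (n1 v w, m1 v w) := by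
      refine sum_subset (subset_univ _) fun w _ hw => ?_
      have h3 : n1 v w = 0 ∨ m1 v w = 0 := by
        by_contra h4
        push Not at h4
        exact hw (mem_filter.2 ⟨mem_univ _, h4⟩)
      rw [hT]
      refine sum_eq_zero fun p hp => ?_
      rcases h3 with h3 | h3
      · simp only
        rw [h3, hh_zero (hB p hp).1, zero_mul, mul_zero]
      · simp only
        rw [h3, hh_zero (hB p hp).1, star_zero, mul_zero, mul_zero]
    rw [e2, hT]
    simp only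
    rw [sum_comm]
    refine sum_congr rfl fun p _ => ?_
    rw [hTr, mul_sum]
  have e3 : Λ * B.card ≤ ‖∑ w ∈ ZZ v s, T (n1 v w, m1 v w)‖ := by
    rw [← e1, Complex.norm_real, Real.norm_of_nonneg (sum_nonneg fun _ _ => norm_nonneg _)]
    calc Λ * B.card = ∑ p ∈ B, Λ := by rw [sum_const, nsmul_eq_mul, mul_comm]
      _ ≤ _ := sum_le_sum hbad
  have e4 := fib_cs (ZZ v s) (fun w => (n1 v w, m1 v w)) T (Icc (-(X : ℤ)) X ×ˢ Icc (-(X : ℤ)) X) (by
    intro w _
    have h5 := nn_abs v N hvN (s + 1) (lst s w.1.2 w.2) w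
    have h6 := mm_abs v N hvN (s + 1) (lst s w.1.2 w.2) w
    rw [mem_product, mem_Icc, mem_Icc]
    rw [hX]
    push_cast
    exact ⟨abs_le.1 h5, abs_le.1 h6⟩)
  have e5 : ((((ZZ v s ×ˢ ZZ v s).filter fun p => (n1 v p.1, m1 v p.1) = (n1 v p.2, m1 v p.2)).card : ℕ) : ℝ) ≤
      (2 * N + 1) ^ (2 * (s + 1)) * ((2 * N + 1) * (4 * (D : ℝ) ^ 2) ^ (s + 1)) := by
    have h7 := pairs_eq v hvi N hvN s D hD
    rw [card_vv] at h7
    have h8 := (Nat.cast_le (α := ℝ)).2 h7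
    refine h8.trans (le_of_eq ?_)
    push_cast
    ring
  have e6 := h Q X B c hB hc1
  have hXr : ((X : ℕ) : ℝ) = (2 * (N : ℝ)) ^ (s + 1) := by rw [hX]; push_cast; ring
  rw [hXr] at e6
  calc (Λ * B.card) ^ 2 ≤ ‖∑ w ∈ ZZ v s, T (n1 v w, m1 v w)‖ ^ 2 := pow_le_pow_left₀ (by positivity) e3 2
    _ ≤ _ := e4
    _ ≤ _ := mul_le_mul (le_trans (le_of_eq (by congr)) e5) e6 (sum_nonneg fun _ _ => by positivity) (by positivity)

end Pool.Agent.K1H93.PG
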