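import Pool.Agent.K1H93.PG.Fin

/-!
# Short bilinear forms with characters: main theorems
-/

set_option autoImplicit false

namespace Pool.Agent.K1H93.PG

open Finset
open Pool.Agent.R345.SS (J J_mul)

/-- the integers from `-N` to `N`, `N = ⌊Q ^ η⌋` -/
noncomputable def Bx (Q : ℕ) (η : ℝ) : Finset ℤ := Icc (-((⌊(Q : ℝ) ^ η⌋₊ : ℕ) : ℤ)) ((⌊(Q : ℝ) ^ η⌋₊ : ℕ) : ℤ)

/-- the bound for all weights -/
def NLE (Q : ℕ) (η : ℝ) (K : ℤ → ℂ) (L : ℝ) : Prop := ∀ f g : ℤ → ℂ,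
  ‖∑ a ∈ Bx Q η, ∑ b ∈ Bx Q η, f a * g b * K (a + b)‖ ≤
    L * (√(∑ a ∈ Bx Q η, ‖f a‖ ^ 2) * √(∑ b ∈ Bx Q η, ‖g b‖ ^ 2))

/-- the progression `x + t n`, `|n| ≤ N`, `N = ⌊Q ^ η⌋` -/
noncomputable def Pg {p : ℕ} (Q : ℕ) (η : ℝ) (x t : ZMod p) : Finset (ZMod p) :=
  (Bx Q η).image fun n : ℤ => x + t * n

/-- the bound for all weights on two opposite progressions -/
def PLE {p : ℕ} (Q : ℕ) (η : ℝ) (K : ZMod p → ℂ) (L : ℝ) : Prop := ∀ (x t : ZMod p) (f g : ZMod p → ℂ),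
  ‖∑ a ∈ Pg Q η x t, ∑ b ∈ Pg Q η (-x) t, f a * g b * K (a + b)‖ ≤
    L * (√(∑ a ∈ Pg Q η x t, ‖f a‖ ^ 2) * √(∑ b ∈ Pg Q η (-x) t, ‖g b‖ ^ 2))

theorem sets {p : ℕ} (Q : ℕ) (η : ℝ) (K : ZMod p → ℂ) (L : ℝ) (h : PLE Q η K L) (x t : ZMod p) (A B : Finset (ZMod p))
    (hA : A ⊆ Pg Q η x t) (hB : B ⊆ Pg Q η (-x) t) :
    ‖∑ a ∈ A, ∑ b ∈ B, K (a + b)‖ ≤ L * √((A.card : ℝ) * B.card) := by
  classical
  have h1 := h x t (fun a => if a ∈ A then 1 else 0) (fun b => if b ∈ B then 1 else 0)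
  have e1 : ∑ a ∈ Pg Q η x t, ∑ b ∈ Pg Q η (-x) t, (if a ∈ A then (1 : ℂ) else 0) * (if b ∈ B then 1 else 0) * K (a + b) =
      ∑ a ∈ A, ∑ b ∈ B, K (a + b) := by
    rw [← sum_subset hA]
    · refine sum_congr rfl fun a ha => ?_
      rw [← sum_subset hB]
      · refine sum_congr rfl fun b hb => ?_
        rw [if_pos ha, if_pos hb, one_mul, one_mul]
      · intro b _ hb
        rw [if_neg hb, mul_zero, zero_mul]
    · intro a _ ha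
      refine sum_eq_zero fun b _ => ?_
      rw [if_neg ha, zero_mul, zero_mul]
  have e2 : ∀ S T : Finset (ZMod p), S ⊆ T → ∑ a ∈ T, ‖(if a ∈ S then (1 : ℂ) else 0)‖ ^ 2 = S.card := by
    intro S T hS
    rw [← sum_subset hS]
    · rw [sum_congr rfl (g := fun _ => (1 : ℝ)) fun a ha => by rw [if_pos ha]; norm_num, sum_const, nsmul_eq_mul, mul_one]
    · intro a _ ha
      rw [if_neg ha]
      norm_num
  rw [e1, e2 A _ hA, e2 B _ hB, ← Real.sqrt_mul (Nat.cast_nonneg _)] at h1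
  exact h1

/-- progressions -/
theorem prog {p : ℕ} (hp : p.Prime) (Q : ℕ) (η : ℝ) (K : ZMod p → ℂ) (L : ℝ) (hL : 0 ≤ L)
    (hN : 2 * (⌊(Q : ℝ) ^ η⌋₊) < p) (h0 : K 0 = 0) (hm : ∀ x y, K (x * y) = K x * K y) (hK : ∀ x, ‖K x‖ ≤ 1)
    (h : NLE Q η (fun n => K (n : ZMod p)) L) : PLE Q η K L := by
  have : Fact p.Prime := ⟨hp⟩
  intro x t f g
  by_cases ht : t = 0
  · subst ht
    have e : ∀ y : ZMod p, Pg Q η y 0 = {y} := by
      intro y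
      unfold Pg
      ext z
      rw [mem_image, mem_singleton]
      constructor
      · rintro ⟨n, _, hn⟩
        rw [← hn]; ring
      · intro hz
        exact ⟨0, by unfold Bx; rw [mem_Icc]; omega, by rw [hz]; push_cast; ring⟩
    rw [e, e, sum_singleton, sum_singleton, sum_singleton, sum_singleton, add_neg_cancel, h0, mul_zero, norm_zero]
    positivity
  · have hinj : ∀ y : ZMod p, Set.InjOn (fun n : ℤ => y + t * (n : ZMod p)) (Bx Q η : Set ℤ) := by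
      intro y n hn m hm' hnm
      simp only [add_right_inj] at hnm
      have h1 : (n : ZMod p) = m := mul_left_cancel₀ ht hnm
      have h2 := (ZMod.intCast_eq_intCast_iff_dvd_sub n m p).1 h1
      unfold Bx at hn hm'
      rw [coe_Icc, Set.mem_Icc] at hn hm'
      by_contra hne
      have h3 := Int.le_of_dvd (abs_pos.2 (sub_ne_zero.2 (Ne.symm hne))) ((dvd_abs _ _).2 h2)
      rw [le_abs] at h3
      omega
    have e1 : ∑ a ∈ Pg Q η x t, ∑ b ∈ Pg Q η (-x) t, f a * g b * K (a + b) =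
        K t * ∑ n ∈ Bx Q η, ∑ m ∈ Bx Q η, f (x + t * n) * g (-x + t * m) * K ((n + m : ℤ) : ZMod p) := by
      unfold Pg
      rw [sum_image (hinj x), mul_sum]
      refine sum_congr rfl fun n _ => ?_
      rw [sum_image (hinj (-x)), mul_sum]
      refine sum_congr rfl fun m _ => ?_
      have e2 : x + t * (n : ZMod p) + (-x + t * (m : ZMod p)) = t * ((n + m : ℤ) : ZMod p) := by
        push_cast
        ring
      rw [e2, hm]
      ring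
    have e3 : ∀ (y : ZMod p) (u : ZMod p → ℂ), ∑ a ∈ Pg Q η y t, ‖u a‖ ^ 2 = ∑ n ∈ Bx Q η, ‖u (y + t * n)‖ ^ 2 := by
      intro y u
      unfold Pg
      exact sum_image (hinj y)
    rw [e1, e3, e3, norm_mul]
    have h4 := h (fun n => f (x + t * n)) (fun m => g (-x + t * m))
    calc _ ≤ 1 * _ := mul_le_mul_of_nonneg_right (hK t) (norm_nonneg _)
      _ = _ := one_mul _
      _ ≤ _ := h4

/-- failure of the bound and closed walks -/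
theorem fail (Q : ℕ) (η : ℝ) (h : ℤ → ℂ) (h1 : h 1 = 1) (hm : ∀ x y, h (x * y) = h x * h y)
    (l : ℝ) (s : ℕ) (hQ : 1 ≤ Q) (hn : ¬ NLE Q η h ((Q : ℝ) ^ l)) :
    (Q : ℝ) ^ (2 * ((s : ℝ) + 1) * l) ≤ ‖∑ w : Wk (Icc (-((⌊(Q : ℝ) ^ η⌋₊ : ℕ) : ℤ)) ((⌊(Q : ℝ) ^ η⌋₊ : ℕ) : ℤ)) (s + 1),
          h (n1 (vv ⌊(Q : ℝ) ^ η⌋₊) w) * star (h (m1 (vv ⌊(Q : ℝ) ^ η⌋₊) w))‖ := by
  unfold NLE at hn
  push Not at hn
  obtain ⟨f, g, hfg⟩ := hn
  have hq0 : (0 : ℝ) < Q := by exact_mod_cast hQ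
  set N := ⌊(Q : ℝ) ^ η⌋₊ with hN
  have hb := form_le (vv N) h h1 hm (fun x => f x.1) (fun x => g x.1) s
  set T := ‖∑ w : Wk (Icc (-(N : ℤ)) N) (s + 1), h (n1 (vv N) w) * star (h (m1 (vv N) w))‖ with hT
  have e1 : ∑ a : Icc (-(N : ℤ)) N, ∑ b : Icc (-(N : ℤ)) N, f a.1 * g b.1 * h (vv N a + vv N b) =
      ∑ a ∈ Bx Q η, ∑ b ∈ Bx Q η, f a * g b * h (a + b) := by
    have e2 : ∀ a : ℤ, ∑ b : Icc (-(N : ℤ)) N, f a * g b.1 * h (a + vv N b) = ∑ b ∈ Bx Q η, f a * g b * h (a + b) :=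
      fun a => Finset.sum_coe_sort (Icc (-(N : ℤ)) N) (fun b => f a * g b * h (a + b))
    rw [← Finset.sum_coe_sort (Bx Q η) (fun a => ∑ b ∈ Bx Q η, f a * g b * h (a + b))]
    exact sum_congr rfl fun a _ => e2 a.1
  have e3 : ∀ f : ℤ → ℂ, ∑ a : Icc (-(N : ℤ)) N, ‖f a.1‖ ^ 2 = ∑ a ∈ Bx Q η, ‖f a‖ ^ 2 :=
    fun f => Finset.sum_coe_sort (Icc (-(N : ℤ)) N) (fun a => ‖f a‖ ^ 2)
  rw [e1, e3 f, e3 g] at hb
  set F := ∑ a ∈ Bx Q η, ‖f a‖ ^ 2 with hF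
  set G := ∑ b ∈ Bx Q η, ‖g b‖ ^ 2 with hG
  have hF0 : 0 ≤ F := sum_nonneg fun _ _ => by positivity
  have hG0 : 0 ≤ G := sum_nonneg fun _ _ => by positivity
  have h6 : ((Q : ℝ) ^ l * (√F * √G)) ^ (2 * (s + 1)) < ‖∑ a ∈ Bx Q η, ∑ b ∈ Bx Q η, f a * g b * h (a + b)‖ ^ (2 * (s + 1)) :=
    pow_lt_pow_left₀ hfg (by positivity) (by omega)
  have h7 := h6.trans_le hb
  have h8 : ((Q : ℝ) ^ l * (√F * √G)) ^ (2 * (s + 1)) = (Q : ℝ) ^ (2 * ((s : ℝ) + 1) * l) * (F ^ (s + 1) * G ^ (s + 1)) := by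
    rw [mul_pow, mul_pow, pow_mul (√F), pow_mul (√G), Real.sq_sqrt hF0, Real.sq_sqrt hG0, ← Real.rpow_natCast,
      ← Real.rpow_mul hq0.le]
    congr 2
    push_cast
    ring
  rw [h8, mul_comm (F ^ (s + 1) * G ^ (s + 1)) T] at h7
  by_contra hcon
  push Not at hcon
  have h9 := mul_le_mul_of_nonneg_right hcon.le (show 0 ≤ F ^ (s + 1) * G ^ (s + 1) by positivity)
  linarith

theorem bound_of {p : ℕ} (hp : p.Prime) (χ : DirichletCharacter ℂ p) (Q : ℕ) (η l : ℝ) (hη : 0 < η)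
    (hQ : 1 ≤ Q) (h3 : 3 * (Q : ℝ) ^ η < p) (h : NLE Q η (hh χ) ((Q : ℝ) ^ l)) : PLE Q η (fun z => χ z) ((Q : ℝ) ^ l) := by
  have : Fact p.Prime := ⟨hp⟩
  have hq0 : (0 : ℝ) < Q := by exact_mod_cast hQ
  obtain ⟨_, h4⟩ := floor_facts η hη Q hQ
  have h5 : 2 * (⌊(Q : ℝ) ^ η⌋₊) < p := by
    have : (((2 * ⌊(Q : ℝ) ^ η⌋₊ : ℕ) : ℝ)) < p := by
      have h6 : 0 < (Q : ℝ) ^ η := by positivity
      push_cast
      linarith
    exact_mod_cast this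
  exact prog hp Q η _ _ (by positivity) h5 (MulChar.map_zero χ) (fun x y => map_mul χ x y)
    (fun x => DirichletCharacter.norm_le_one _ _) h

/-- large values -/
theorem main0 (η l ε : ℝ) (r : ℕ) (hη : 0 < η) (hε : 0 < ε) (hr : 1 ≤ r)
    (h1 : η * (2 * r + 1) + 2 < 4 * r * l) : ∃ Q₀ : ℕ, 2 ≤ Q₀ ∧ ∀ Q : ℕ, Q₀ ≤ Q →
    ∀ S : Finset (Σ p : ℕ, DirichletCharacter ℂ p),
      (∀ i ∈ S, i.1.Prime ∧ 3 * (Q : ℝ) ^ η < i.1 ∧ i.1 ≤ Q ∧ i.2 ≠ 1 ∧ ¬ PLE Q η (fun z => i.2 z) ((Q : ℝ) ^ l)) →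
        (S.card : ℝ) ≤ (Q : ℝ) ^ (η * (4 * r + 1) - 4 * r * l + ε) := by
  obtain ⟨s, rfl⟩ : ∃ s, r = s + 1 := ⟨r - 1, by omega⟩
  push_cast at h1 ⊢
  obtain ⟨Q₀, hQ02, h⟩ := gen_final η l ε s hη hε h1
  refine ⟨Q₀, hQ02, fun Q hQ S hS => ?_⟩
  apply h Q hQ S (fun i hi => ⟨(hS i hi).1, (hS i hi).2.2.1, (hS i hi).2.2.2.1⟩)
  intro i hi
  obtain ⟨h2, h3, h4, h5, h6⟩ := hS i hi
  exact fail Q η (hh i.2) (hh_one _) (hh_mul _) l s (by omega) fun h7 => h6 (bound_of h2 i.2 Q η l hη (by omega) h3 h7)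

theorem small_primes (Q : ℕ) (η : ℝ) (P : ℕ → Prop) [DecidablePred P] :
    ((((range (Q + 1)).filter fun p : ℕ => P p ∧ (p : ℝ) ≤ 3 * (Q : ℝ) ^ η).card : ℕ) : ℝ) ≤ 3 * (Q : ℝ) ^ η + 1 := by
  have h1 : ((range (Q + 1)).filter fun p : ℕ => P p ∧ (p : ℝ) ≤ 3 * (Q : ℝ) ^ η) ⊆ range (⌊3 * (Q : ℝ) ^ η⌋₊ + 1) := by
    intro p hp
    rw [mem_range, Nat.lt_succ_iff]
    exact Nat.le_floor (mem_filter.1 hp).2.2
  have h2 := card_le_card h1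
  rw [card_range] at h2
  have h3 : ((((range (Q + 1)).filter fun p : ℕ => P p ∧ (p : ℝ) ≤ 3 * (Q : ℝ) ^ η).card : ℕ) : ℝ) ≤
      ((⌊3 * (Q : ℝ) ^ η⌋₊ + 1 : ℕ) : ℝ) := by exact_mod_cast h2
  push_cast at h3
  have h4 := Nat.floor_le (show 0 ≤ 3 * (Q : ℝ) ^ η by positivity)
  linarith

/-- adding the small primes to the exceptional set -/
theorem add_small (η δ : ℝ) (hη1 : η < 1) (hδ : 0 < δ) : ∃ δ' : ℝ, 0 < δ' ∧ ∃ Q₀ : ℕ, 2 ≤ Q₀ ∧ ∀ Q : ℕ, Q₀ ≤ Q →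
    (Q : ℝ) ^ (1 - δ) + (3 * (Q : ℝ) ^ η + 1) ≤ (Q : ℝ) ^ (1 - δ') := by
  set δ' : ℝ := min (min δ (1 - η)) 1 / 2 with hδ'
  have h1 : 0 < min (min δ (1 - η)) 1 := lt_min (lt_min hδ (by linarith)) one_pos
  have h2 : 2 * δ' ≤ δ := by
    have := (min_le_left (min δ (1 - η)) 1).trans (min_le_left _ _)
    rw [hδ']; linarith
  have h3 : 2 * δ' ≤ 1 - η := by
    have := (min_le_left (min δ (1 - η)) 1).trans (min_le_right _ _)
    rw [hδ']; linarith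
  have h4 : 2 * δ' ≤ 1 := by
    have := min_le_right (min δ (1 - η)) 1
    rw [hδ']; linarith
  have h0 : 0 < δ' := by rw [hδ']; linarith
  obtain ⟨Q₀, hQ02, h⟩ := ev 5 δ' h0
  refine ⟨δ', h0, Q₀, hQ02, fun Q hQ => ?_⟩
  have hq1 : (1 : ℝ) ≤ Q := by exact_mod_cast (by omega : 1 ≤ Q)
  have hq0 : (0 : ℝ) < Q := by linarith
  have a1 : (Q : ℝ) ^ (1 - δ) ≤ (Q : ℝ) ^ (1 - 2 * δ') := Real.rpow_le_rpow_of_exponent_le hq1 (by linarith)
  have a2 : (Q : ℝ) ^ η ≤ (Q : ℝ) ^ (1 - 2 * δ') := Real.rpow_le_rpow_of_exponent_le hq1 (by linarith)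
  have a3 : (1 : ℝ) ≤ (Q : ℝ) ^ (1 - 2 * δ') := Real.one_le_rpow hq1 (by linarith)
  have a4 : (Q : ℝ) ^ (1 - δ') = (Q : ℝ) ^ δ' * (Q : ℝ) ^ (1 - 2 * δ') := by
    rw [← Real.rpow_add hq0]
    congr 1
    ring
  rw [a4]
  have a5 := mul_le_mul_of_nonneg_right (h Q hQ).le (show 0 ≤ (Q : ℝ) ^ (1 - 2 * δ') by positivity)
  linarith

open Classical in
/-- all characters modulo almost all primes -/
theorem main1 (η ε : ℝ) (hη : 0 < η) (hη1 : η < 1) (hε : 0 < ε) : ∃ δ : ℝ, 0 < δ ∧ ∃ Q₀ : ℕ, ∀ Q : ℕ, Q₀ ≤ Q →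
    ∃ E : Finset ℕ, (E.card : ℝ) ≤ (Q : ℝ) ^ (1 - δ) ∧
      ∀ p : ℕ, p.Prime → p ≤ Q → p ∉ E → ∀ χ : DirichletCharacter ℂ p, χ ≠ 1 →
        PLE Q η (fun z => χ z) ((Q : ℝ) ^ (η * (1 - (1 - η) / (6 + 4 * η)) + ε)) := by
  set l : ℝ := η * (1 - (1 - η) / (6 + 4 * η)) + ε with hl
  set s : ℕ := ⌊3 / (2 * η)⌋₊ with hs
  have hs1 : 3 / (2 * η) < (s : ℝ) + 1 := Nat.lt_floor_add_one _
  have hs2 : (s : ℝ) ≤ 3 / (2 * η) := Nat.floor_le (by positivity)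
  have hs1' : 3 < 2 * (((s : ℝ) + 1) * η) := by
    rw [div_lt_iff₀ (by positivity)] at hs1
    linarith
  have hs2' : 2 * (((s : ℝ) + 1) * η) ≤ 3 + 2 * η := by
    rw [le_div_iff₀ (by positivity)] at hs2
    linarith
  have h6 : 0 < 6 + 4 * η := by positivity
  have hl4 : 4 * ((s : ℝ) + 1) * η - (1 - η) + 4 * ((s : ℝ) + 1) * ε ≤ 4 * ((s : ℝ) + 1) * l := by
    have a1 : 4 * ((s : ℝ) + 1) * η * ((1 - η) / (6 + 4 * η)) ≤ 1 - η := by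
      rw [← mul_div_assoc, div_le_iff₀ h6, mul_comm (1 - η)]
      exact mul_le_mul_of_nonneg_right (by linarith) (by linarith)
    have a3 : 4 * ((s : ℝ) + 1) * l = 4 * ((s : ℝ) + 1) * η - 4 * ((s : ℝ) + 1) * η * ((1 - η) / (6 + 4 * η)) +
        4 * ((s : ℝ) + 1) * ε := by rw [hl]; ring
    rw [a3]
    linarith
  have a2 : 0 < 4 * ((s : ℝ) + 1) * ε := by positivity
  have a4 : ε ≤ ((s : ℝ) + 1) * ε := by
    have : 0 ≤ (s : ℝ) * ε := by positivity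
    linarith
  obtain ⟨Q₀, hQ02, h⟩ := main0 η l ε (s + 1) hη hε (by omega) (by push_cast; linarith)
  obtain ⟨δ', hδ', Q₁, hQ12, h'⟩ := add_small η ε hη1 hε
  refine ⟨δ', hδ', max Q₀ Q₁, fun Q hQ => ?_⟩
  have hQ0 : Q₀ ≤ Q := (le_max_left _ _).trans hQ
  have hQ1 : Q₁ ≤ Q := (le_max_right _ _).trans hQ
  have hq1 : (1 : ℝ) ≤ Q := by exact_mod_cast (by omega : 1 ≤ Q)
  set P : ℕ → Prop := fun p => p.Prime ∧ 3 * (Q : ℝ) ^ η < p ∧ ∃ χ : DirichletCharacter ℂ p, χ ≠ 1 ∧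
    ¬ PLE Q η (fun z => χ z) ((Q : ℝ) ^ l) with hP
  set χ' : ∀ p : ℕ, DirichletCharacter ℂ p := fun p => if hp : P p then hp.2.2.choose else 1 with hχ'
  set E1 := (range (Q + 1)).filter P with hE1
  set E2 := (range (Q + 1)).filter (fun p : ℕ => True ∧ (p : ℝ) ≤ 3 * (Q : ℝ) ^ η) with hE2
  refine ⟨E1 ∪ E2, ?_, ?_⟩
  · have c1 : (E1.card : ℝ) ≤ (Q : ℝ) ^ (1 - ε) := by
      set S : Finset (Σ p : ℕ, DirichletCharacter ℂ p) := E1.image fun p => ⟨p, χ' p⟩ with hS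
      have hc : S.card = E1.card := by
        apply card_image_of_injective
        intro p q hpq
        exact congrArg Sigma.fst hpq
      rw [← hc]
      refine (h Q hQ0 S ?_).trans ?_
      · intro i hi
        obtain ⟨p, hp, rfl⟩ := mem_image.1 hi
        obtain ⟨b1, b2⟩ := mem_filter.1 hp
        have e : χ' p = b2.2.2.choose := by
          rw [hχ']
          simp only
          rw [dif_pos b2]
        refine ⟨b2.1, b2.2.1, Nat.lt_succ_iff.1 (mem_range.1 b1), ?_, ?_⟩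
        · simp only [e]
          exact b2.2.2.choose_spec.1
        · simp only [e]
          exact b2.2.2.choose_spec.2
      · apply Real.rpow_le_rpow_of_exponent_le hq1
        push_cast
        linarith
    have c2 := small_primes Q η (fun _ => True)
    have c3 : ((E1 ∪ E2).card : ℝ) ≤ E1.card + E2.card := by exact_mod_cast card_union_le _ _
    have c4 : (E2.card : ℝ) ≤ 3 * (Q : ℝ) ^ η + 1 := by
      refine le_trans (le_of_eq ?_) c2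
      rw [hE2]
    have := h' Q hQ1
    linarith
  · intro p hp hpQ hpE χ hχ
    rw [mem_union, not_or] at hpE
    by_contra hcon
    refine hpE.1 (mem_filter.2 ⟨mem_range.2 (by omega), hp, ?_, χ, hχ, hcon⟩)
    by_contra h3
    exact hpE.2 (mem_filter.2 ⟨mem_range.2 (by omega), trivial, not_lt.1 h3⟩)

/-- almost all characters -/
theorem main3 (η ε : ℝ) (hη : 0 < η) (hη1 : η < 1) (hε : 0 < ε) : ∃ δ : ℝ, 0 < δ ∧ ∃ Q₀ : ℕ, ∀ Q : ℕ, Q₀ ≤ Q →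
    ∀ S : Finset (Σ p : ℕ, DirichletCharacter ℂ p),
      (∀ i ∈ S, i.1.Prime ∧ 3 * (Q : ℝ) ^ η < i.1 ∧ i.1 ≤ Q ∧ i.2 ≠ 1 ∧
        ¬ PLE Q η (fun z => i.2 z) ((Q : ℝ) ^ (η * (1 - (2 - η) / (8 + 4 * η)) + ε))) →
        (S.card : ℝ) ≤ (Q : ℝ) ^ (2 - δ) := by
  set l : ℝ := η * (1 - (2 - η) / (8 + 4 * η)) + ε with hl
  set s : ℕ := ⌊2 / η⌋₊ with hs
  have hs1 : 2 / η < (s : ℝ) + 1 := Nat.lt_floor_add_one _
  have hs2 : (s : ℝ) ≤ 2 / η := Nat.floor_le (by positivity)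
  have hs1' : 2 < ((s : ℝ) + 1) * η := by
    rw [div_lt_iff₀ (by positivity)] at hs1
    linarith
  have hs2' : ((s : ℝ) + 1) * η ≤ 2 + η := by
    rw [le_div_iff₀ (by positivity)] at hs2
    linarith
  have h6 : 0 < 8 + 4 * η := by positivity
  have hl4 : 4 * ((s : ℝ) + 1) * η - (2 - η) + 4 * ((s : ℝ) + 1) * ε ≤ 4 * ((s : ℝ) + 1) * l := by
    have a1 : 4 * ((s : ℝ) + 1) * η * ((2 - η) / (8 + 4 * η)) ≤ 2 - η := by
      rw [← mul_div_assoc, div_le_iff₀ h6, mul_comm (2 - η)]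
      exact mul_le_mul_of_nonneg_right (by linarith) (by linarith)
    have a3 : 4 * ((s : ℝ) + 1) * l = 4 * ((s : ℝ) + 1) * η - 4 * ((s : ℝ) + 1) * η * ((2 - η) / (8 + 4 * η)) +
        4 * ((s : ℝ) + 1) * ε := by rw [hl]; ring
    rw [a3]
    linarith
  have a2 : 0 < 4 * ((s : ℝ) + 1) * ε := by positivity
  have a4 : ε ≤ ((s : ℝ) + 1) * ε := by
    have : 0 ≤ (s : ℝ) * ε := by positivity
    linarith
  obtain ⟨Q₀, hQ02, h⟩ := main0 η l ε (s + 1) hη hε (by omega) (by push_cast; linarith)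
  refine ⟨ε, hε, Q₀, fun Q hQ S hS => (h Q hQ S hS).trans ?_⟩
  apply Real.rpow_le_rpow_of_exponent_le (by exact_mod_cast (by omega : 1 ≤ Q))
  push_cast
  linarith

theorem J_quad {p : ℕ} [Fact p.Prime] (n : ℤ) : ((quadraticChar (ZMod p) (n : ZMod p) : ℤ) : ℂ) = ((J n p : ℝ) : ℂ) := by
  unfold J
  rw [← jacobiSym.legendreSym.to_jacobiSym]
  push_cast
  rfl

open Classical in
theorem main2 (η ε : ℝ) (r k : ℕ) (hη : 0 < η) (hη1 : η < 1) (hε : 0 < ε) (hr : 1 ≤ r) (hk : 1 ≤ k)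
    (hrk : (4 * (r : ℝ) - 2) * η ≤ k) :
    ∃ δ : ℝ, 0 < δ ∧ ∃ Q₀ : ℕ, ∀ Q : ℕ, Q₀ ≤ Q →
    ∃ E : Finset ℕ, (E.card : ℝ) ≤ (Q : ℝ) ^ (1 - δ) ∧
      ∀ (p : ℕ) [Fact p.Prime], p ≠ 2 → p ≤ Q → p ∉ E →
        PLE Q η (fun z : ZMod p => ((quadraticChar (ZMod p) z : ℤ) : ℂ))
          ((Q : ℝ) ^ (η * (1 - ((r : ℝ) - 1) / (2 * r * k)) + ε)) := by
  set l : ℝ := η * (1 - ((r : ℝ) - 1) / (2 * r * k)) + ε with hl
  obtain ⟨s, rfl⟩ : ∃ s, r = s + 1 := ⟨r - 1, by omega⟩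
  obtain ⟨k, rfl⟩ : ∃ k', k = k' + 1 := ⟨k - 1, by omega⟩
  push_cast at hl hrk
  have hl4 : 4 * ((s : ℝ) + 1) * l * (k + 1) = 4 * ((s : ℝ) + 1) * η * (k + 1) - 2 * s * η +
      4 * ((s : ℝ) + 1) * ε * (k + 1) := by
    rw [hl]
    field_simp
    ring
  have hpos : 0 < 4 * ((s : ℝ) + 1) * ε * (k + 1) := by positivity
  obtain ⟨δ, hδ, Q₀, hQ02, h⟩ := quad_final η l s k hη hrk (by rw [hl4]; linarith)
  obtain ⟨δ', hδ', Q₁, hQ12, h'⟩ := add_small η δ hη1 hδ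
  refine ⟨δ', hδ', max Q₀ Q₁, fun Q hQ => ?_⟩
  have hQ0 : Q₀ ≤ Q := (le_max_left _ _).trans hQ
  have hQ1 : Q₁ ≤ Q := (le_max_right _ _).trans hQ
  set P : ℕ → Prop := fun p => p.Prime ∧ p ≠ 2 ∧ ¬ NLE Q η (fun x => ((J x p : ℝ) : ℂ)) ((Q : ℝ) ^ l) with hP
  set E1 := (range (Q + 1)).filter P with hE1
  set E2 := (range (Q + 1)).filter (fun p : ℕ => True ∧ (p : ℝ) ≤ 3 * (Q : ℝ) ^ η) with hE2
  refine ⟨E1 ∪ E2, ?_, ?_⟩
  · have c1 : (E1.card : ℝ) ≤ (Q : ℝ) ^ (1 - δ) := by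
      apply h Q hQ0 _
      · intro p hp
        obtain ⟨h1, h2⟩ := mem_filter.1 hp
        exact ⟨h2.1, h2.2.1, Nat.lt_succ_iff.1 (mem_range.1 h1)⟩
      · intro p hp
        obtain ⟨h1, h2⟩ := mem_filter.1 hp
        have h4 := fail Q η (fun x => ((J x p : ℝ) : ℂ)) (by
          unfold J
          rw [jacobiSym.one_left]
          norm_num) (by
          intro x y
          rw [J_mul]
          push_cast
          rfl) l s (by omega) h2.2.2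
        refine h4.trans (le_of_eq ?_)
        rw [← Real.norm_eq_abs, ← Complex.norm_real]
        congr 1
        push_cast
        refine sum_congr rfl fun w _ => ?_
        rw [RCLike.star_def, Complex.conj_ofReal]
    have c2 := small_primes Q η (fun _ => True)
    have c3 : ((E1 ∪ E2).card : ℝ) ≤ E1.card + E2.card := by exact_mod_cast card_union_le _ _
    have c4 : (E2.card : ℝ) ≤ 3 * (Q : ℝ) ^ η + 1 := by
      refine le_trans (le_of_eq ?_) c2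
      rw [hE2]
    have := h' Q hQ1
    linarith
  · intro p hp hp2 hpQ hpE
    rw [mem_union, not_or] at hpE
    have hQp : 1 ≤ Q := by omega
    have hq0 : (0 : ℝ) < Q := by exact_mod_cast hQp
    have h3 : 3 * (Q : ℝ) ^ η < p := by
      by_contra h3
      exact hpE.2 (mem_filter.2 ⟨mem_range.2 (by omega), trivial, not_lt.1 h3⟩)
    have h5 : 2 * (⌊(Q : ℝ) ^ η⌋₊) < p := by
      obtain ⟨_, h4⟩ := floor_facts η hη Q hQp
      have : (((2 * ⌊(Q : ℝ) ^ η⌋₊ : ℕ) : ℝ)) < p := by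
        have h6 : 0 < (Q : ℝ) ^ η := by positivity
        push_cast
        linarith
      exact_mod_cast this
    apply prog hp.out Q η _ _ (by positivity) h5
    · rw [quadraticChar_zero]; norm_num
    · intro x y
      rw [map_mul]
      push_cast
      rfl
    · intro x
      rcases eq_or_ne x 0 with hx | hx
      · rw [hx, quadraticChar_zero]; norm_num
      · rcases quadraticChar_dichotomy hx with h6 | h6 <;> rw [h6] <;> norm_num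
    · by_contra hcon
      refine hpE.1 (mem_filter.2 ⟨mem_range.2 (by omega), hp.out, hp2, ?_⟩)
      intro h7
      apply hcon
      have e2 : (fun x : ℤ => ((quadraticChar (ZMod p) (x : ZMod p) : ℤ) : ℂ)) = fun x => ((J x p : ℝ) : ℂ) := by
        funext x
        exact J_quad x
      rw [e2]
      exact h7

end Pool.Agent.K1H93.PG
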