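import Pool.Agent.K1H93.PG.Gen
import Pool.Agent.R345.SS9
import Pool.Agent.Helper919.NonRes

/-!
# Short bilinear forms with characters: the large sieve for the quadratic characters
-/

set_option autoImplicit false

namespace Pool.Agent.K1H93.PG

open Finset
open Pool.Agent.R345.SS (J J_abs J_mul tuples_card ch_prod_right ch_prime)
open Pool.Agent.H951R4.OD (ch ch_mul_left)
open Pool.Agent.H951R4.OD.A1aux (ch_mod ch_mul_right abs_ch_le)

theorem ch_nonunit (D : ℤ) (n : ℕ) (h : ¬ n.Coprime (4 * D.natAbs)) : ch D n = 0 := by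
  unfold ch
  split_ifs with ho
  · have ho' : Odd n := Nat.odd_iff.2 ho
    have h3 : jacobiSym D n = 0 := by
      refine jacobiSym.eq_zero_iff.2 ⟨ho'.pos.ne', fun hg => h ?_⟩
      have h4 : n.Coprime 4 := by
        have : n.Coprime 2 := (Nat.coprime_two_right).2 ho'
        exact Nat.Coprime.mul_right this this
      have hD' : n.Coprime D.natAbs := by
        rw [Nat.coprime_comm]
        simpa [Int.gcd] using hg
      exact Nat.Coprime.mul_right h4 hD'
    rw [h3]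
    norm_num
  · rfl

/-- the character (after `Pool.Agent.TH134.GR.psi`) -/
noncomputable def psi (D : ℤ) (hD : D ≠ 0) : DirichletCharacter ℂ (4 * D.natAbs) where
  toFun a := ((ch D a.val : ℝ) : ℂ)
  map_one' := by
    have h1 : 1 < 4 * D.natAbs := by
      have := Int.natAbs_pos.2 hD
      omega
    have : Fact (1 < 4 * D.natAbs) := ⟨h1⟩
    rw [ZMod.val_one]
    unfold ch
    rw [if_pos (by norm_num), jacobiSym.one_right]
    norm_num
  map_mul' a b := by
    have : NeZero (4 * D.natAbs) := ⟨by have := Int.natAbs_pos.2 hD; omega⟩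
    rw [ZMod.val_mul, ch_mod, ch_mul_right]
    push_cast
    rfl
  map_nonunit' a ha := by
    have : NeZero (4 * D.natAbs) := ⟨by have := Int.natAbs_pos.2 hD; omega⟩
    have h : ¬ a.val.Coprime (4 * D.natAbs) := by
      intro hc
      apply ha
      have := (ZMod.isUnit_iff_coprime a.val (4 * D.natAbs)).2 hc
      rwa [ZMod.natCast_zmod_val] at this
    have h2 : ch D a.val = 0 := ch_nonunit D a.val h
    rw [h2]
    norm_num

theorem psi_nat (D : ℤ) (hD : D ≠ 0) (n : ℕ) :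
    psi D hD (n : ZMod (4 * D.natAbs)) = ((ch D n : ℝ) : ℂ) := by
  change ((ch D ((n : ZMod (4 * D.natAbs))).val : ℝ) : ℂ) = _
  rw [ZMod.val_natCast, ch_mod]

theorem psi_ne (D : ℤ) (hD : D ≠ 0) (h : ∃ n : ℕ, Odd n ∧ jacobiSym D n = -1) : psi D hD ≠ 1 := by
  obtain ⟨n, hn, hj⟩ := h
  intro he
  have h1 := psi_nat D hD n
  rw [he] at h1
  have h2 : ch D n = -1 := by
    unfold ch
    rw [if_pos (Nat.odd_iff.1 hn), hj]
    norm_num
  rw [h2] at h1
  by_cases hu : IsUnit (n : ZMod (4 * D.natAbs))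
  · rw [MulChar.one_apply hu] at h1
    norm_num at h1
  · rw [MulChar.map_nonunit _ hu] at h1
    norm_num at h1

/-- Pólya–Vinogradov -/
theorem pv_ch : ∃ C : ℝ, 0 < C ∧ ∀ (D : ℤ) (N1 : ℝ) (M : ℕ), ¬ IsSquare D → 1 ≤ N1 → |(D : ℝ)| ≤ N1 ^ 2 →
    |∑ m ∈ range (M + 1), ch D m| ≤ C * N1 * (1 + Real.log N1) := by
  obtain ⟨C, hC, h⟩ := Pool.Agent.H38R2.CG.T_PV
  refine ⟨4 * C, by positivity, fun D N1 M hs hN1 hD => ?_⟩
  have hD0 : D ≠ 0 := by rintro rfl; exact hs ⟨0, by simp⟩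
  have hne := psi_ne D hD0 (Pool.Agent.Helper919.exists_jacobi_neg_one D hs)
  have hpos := Int.natAbs_pos.2 hD0
  have h1 := h (4 * D.natAbs) (psi D hD0) (by omega) hne 0 M
  have h2 : ∑ n ∈ Ioc 0 M, psi D hD0 (n : ZMod (4 * D.natAbs)) = ((∑ m ∈ range (M + 1), ch D m : ℝ) : ℂ) := by
    have e : range (M + 1) = insert 0 (Ioc 0 M) := by
      ext n
      simp only [mem_range, mem_insert, mem_Ioc]
      omega
    rw [e, sum_insert (by simp)]
    have e0 : ch D 0 = 0 := by unfold ch; rw [if_neg (by norm_num)]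
    rw [e0, zero_add]
    push_cast
    exact sum_congr rfl fun n _ => psi_nat D hD0 n
  rw [h2, Complex.norm_real, Real.norm_eq_abs] at h1
  have hq : ((4 * D.natAbs : ℕ) : ℝ) ≤ (2 * N1) ^ 2 := by
    push_cast
    rw [Nat.cast_natAbs, Int.cast_abs]
    nlinarith
  have hs1 : √((4 * D.natAbs : ℕ) : ℝ) ≤ 2 * N1 := by
    rw [Real.sqrt_le_left (by positivity)]
    exact hq
  have hl : Real.log ((4 * D.natAbs : ℕ) : ℝ) ≤ 2 * (1 + Real.log N1) := by
    have h3 : Real.log ((4 * D.natAbs : ℕ) : ℝ) ≤ Real.log ((2 * N1) ^ 2) :=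
      Real.log_le_log (by exact_mod_cast (by omega : 0 < 4 * D.natAbs)) hq
    rw [Real.log_pow, Real.log_mul (by norm_num) (by positivity)] at h3
    have h4 := Real.log_two_lt_d9
    have e : (((2 : ℕ) : ℝ)) = 2 := by norm_num
    rw [e] at h3
    linarith
  have hl0 : 0 ≤ Real.log ((4 * D.natAbs : ℕ) : ℝ) := Real.log_nonneg (by exact_mod_cast (by omega : 1 ≤ 4 * D.natAbs))
  calc _ ≤ C * √((4 * D.natAbs : ℕ) : ℝ) * Real.log ((4 * D.natAbs : ℕ) : ℝ) := h1
    _ ≤ C * (2 * N1) * (2 * (1 + Real.log N1)) := by gcongr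
    _ = _ := by ring

open Classical in
/-- the large sieve -/
theorem quad_large : ∃ C : ℝ, 0 < C ∧ ∀ {ι : Type} (Z : Finset ι) (F : ι → ℤ) (k Q : ℕ) (N1 R Sq : ℝ) (B : Finset ℕ) (Λ : ℝ),
    1 ≤ N1 → (∀ z ∈ Z, |(F z : ℝ)| ≤ N1) → (Z.card : ℝ) ≤ R →
    (((Z ×ˢ Z).filter fun p => IsSquare (F p.1 * F p.2)).card : ℝ) ≤ Sq →
    (∀ p ∈ B, p.Prime ∧ p ≠ 2 ∧ p ≤ Q) → 0 ≤ Λ → (∀ p ∈ B, Λ ≤ |∑ z ∈ Z, J (F z) p|) →
    ((Λ * B.card) ^ (k + 1)) ^ 2 ≤ (R ^ k) ^ 2 * ((B.card : ℝ) ^ (k + 1) * ((k + 1).factorial *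
      (((Q : ℝ) ^ (k + 1) + 1) * Sq + R ^ 2 * (C * N1 * (1 + Real.log N1))))) := by
  obtain ⟨C, hC, hPV⟩ := pv_ch
  refine ⟨C, hC, fun {ι} Z F n Q N1 R Sq B Λ hN1 hF hR hSq hB hΛ hbad => ?_⟩
  set ε : ℕ → ℝ := fun p => if 0 ≤ ∑ z ∈ Z, J (F z) p then 1 else -1 with hε
  have hε1 : ∀ p, |ε p| ≤ 1 := by
    intro p
    rw [hε]
    simp only
    split_ifs <;> simp
  have hε2 : ∀ p, ε p * ∑ z ∈ Z, J (F z) p = |∑ z ∈ Z, J (F z) p| := by
    intro p
    rw [hε]
    simp only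
    split_ifs with h
    · rw [one_mul, abs_of_nonneg h]
    · rw [abs_of_neg (not_le.1 h)]; ring
  set a : ι → ℝ := fun z => ∑ p ∈ B, ε p * J (F z) p with ha
  set t : ι → ℝ := fun z => if 0 ≤ a z ^ (n + 1) then 1 else -1 with ht
  have ht1 : ∀ z, |t z| ≤ 1 := by
    intro z
    rw [ht]
    simp only
    split_ifs <;> simp
  have ht2 : ∀ z, t z * a z ^ (n + 1) = |a z| ^ (n + 1) := by
    intro z
    rw [← abs_pow, ht]
    simp only
    split_ifs with h
    · rw [one_mul, abs_of_nonneg h]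
    · rw [abs_of_neg (not_le.1 h)]; ring
  set G : ℕ → ℝ := fun m => ∑ z ∈ Z, t z * ch (F z) m with hG
  have hR0 : 0 ≤ R := (Nat.cast_nonneg _).trans hR
  have h0 : Λ * B.card ≤ ∑ z ∈ Z, |a z| := by
    have e : ∑ z ∈ Z, a z = ∑ p ∈ B, |∑ z ∈ Z, J (F z) p| := by
      rw [ha]
      simp only
      rw [sum_comm]
      refine sum_congr rfl fun p _ => ?_
      rw [← mul_sum, hε2]
    calc Λ * B.card = ∑ p ∈ B, Λ := by rw [sum_const, nsmul_eq_mul]; ring
      _ ≤ _ := sum_le_sum hbad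
      _ = ∑ z ∈ Z, a z := e.symm
      _ ≤ _ := sum_le_sum fun z _ => le_abs_self _
  set T := Fintype.piFinset (fun _ : Fin (n + 1) => B) with hT
  have h1 : (∑ z ∈ Z, |a z|) ^ (n + 1) ≤ R ^ n * ∑ z ∈ Z, |a z| ^ (n + 1) := by
    have h := pow_sum_div_card_le_sum_pow (s := Z) (f := fun z => |a z|) (fun z _ => abs_nonneg _) n
    rcases Z.eq_empty_or_nonempty with he | hne
    · rw [he]; simp
    have hc : (0 : ℝ) < Z.card := by exact_mod_cast hne.card_pos
    rw [div_le_iff₀ (by positivity)] at h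
    have h4 : 0 ≤ ∑ z ∈ Z, |a z| ^ (n + 1) := sum_nonneg fun z _ => by positivity
    have h5 : (Z.card : ℝ) ^ n ≤ R ^ n := pow_le_pow_left₀ hc.le hR _
    calc (∑ z ∈ Z, |a z|) ^ (n + 1) ≤ (∑ z ∈ Z, |a z| ^ (n + 1)) * (Z.card : ℝ) ^ n := h
      _ ≤ (∑ z ∈ Z, |a z| ^ (n + 1)) * R ^ n := mul_le_mul_of_nonneg_left h5 h4
      _ = _ := mul_comm _ _
  have h2 : ∑ z ∈ Z, |a z| ^ (n + 1) ≤ ∑ u ∈ T, |G (∏ i, u i)| := by
    have e : ∀ z, |a z| ^ (n + 1) = ∑ u ∈ T, (∏ i, ε (u i)) * (t z * ch (F z) (∏ i, u i)) := by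
      intro z
      rw [← ht2, ha]
      simp only
      rw [sum_pow', mul_sum]
      refine sum_congr rfl fun u hu => ?_
      rw [prod_mul_distrib, ch_prod_right]
      have e3 : ∏ i, J (F z) (u i) = ∏ i, ch (F z) (u i) := by
        refine prod_congr rfl fun i _ => ?_
        have h3 := hB _ (Fintype.mem_piFinset.1 hu i)
        rw [ch_prime _ h3.1 h3.2.1]
      rw [e3]
      ring
    rw [sum_congr rfl fun z _ => e z, sum_comm]
    refine sum_le_sum fun u _ => ?_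
    rw [← mul_sum]
    refine (le_abs_self _).trans ?_
    rw [abs_mul, abs_prod]
    exact mul_le_of_le_one_left (abs_nonneg _) (prod_le_one (fun _ _ => abs_nonneg _) fun i _ => hε1 _)
  have h3 : (∑ u ∈ T, |G (∏ i, u i)|) ^ 2 ≤ (B.card : ℝ) ^ (n + 1) * ∑ u ∈ T, G (∏ i, u i) ^ 2 := by
    have h := sq_sum_le_card_mul_sum_sq (s := T) (f := fun u => |G (∏ i, u i)|)
    have hc : T.card = B.card ^ (n + 1) := by
      rw [hT, Fintype.card_piFinset_const]
    rw [hc] at h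
    simp only [sq_abs] at h
    exact_mod_cast h
  have h4 : ∑ u ∈ T, G (∏ i, u i) ^ 2 ≤ (n + 1).factorial * ∑ m ∈ range (Q ^ (n + 1) + 1), G m ^ 2 := by
    have hmaps : ∀ u ∈ T, ∏ i, u i ∈ range (Q ^ (n + 1) + 1) := by
      intro u hu
      rw [mem_range, Nat.lt_succ_iff]
      calc ∏ i, u i ≤ ∏ i : Fin (n + 1), Q := prod_le_prod' fun i _ => (hB _ (Fintype.mem_piFinset.1 hu i)).2.2
        _ = Q ^ (n + 1) := by simp
    rw [← sum_fiberwise_of_maps_to hmaps, mul_sum]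
    refine sum_le_sum fun m _ => ?_
    rw [sum_congr rfl (g := fun _ => G m ^ 2) fun u hu => by rw [(mem_filter.1 hu).2], sum_const, nsmul_eq_mul]
    refine mul_le_mul_of_nonneg_right ?_ (sq_nonneg _)
    exact_mod_cast tuples_card (n + 1) B (fun p hp => (hB p hp).1) m
  set PV : ℝ := C * N1 * (1 + Real.log N1) with hPVd
  have hPV0 : 0 ≤ PV := by
    have := Real.log_nonneg hN1
    positivity
  have h5 : ∑ m ∈ range (Q ^ (n + 1) + 1), G m ^ 2 ≤ ((Q : ℝ) ^ (n + 1) + 1) * Sq + R ^ 2 * PV := by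
    have e : ∀ m, G m ^ 2 = ∑ z' ∈ Z, ∑ z ∈ Z, t z' * t z * ch (F z' * F z) m := by
      intro m
      rw [hG]
      simp only
      rw [sq, sum_mul_sum]
      refine sum_congr rfl fun z' _ => sum_congr rfl fun z _ => ?_
      rw [ch_mul_left]
      ring
    rw [sum_congr rfl fun m _ => e m, sum_comm]
    have h7 : ∀ z' ∈ Z, ∀ z ∈ Z, ∑ m ∈ range (Q ^ (n + 1) + 1), t z' * t z * ch (F z' * F z) m ≤
        (if IsSquare (F z' * F z) then ((Q : ℝ) ^ (n + 1) + 1) else 0) + PV := by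
      intro z' hz' z hz
      have htt : |t z' * t z| ≤ 1 := by
        rw [abs_mul]
        exact mul_le_one₀ (ht1 _) (abs_nonneg _) (ht1 _)
      rw [← mul_sum]
      by_cases hs : IsSquare (F z' * F z)
      · rw [if_pos hs]
        have h8 : |∑ m ∈ range (Q ^ (n + 1) + 1), ch (F z' * F z) m| ≤ (Q : ℝ) ^ (n + 1) + 1 := by
          refine (abs_sum_le_sum_abs _ _).trans ((sum_le_sum fun m _ => abs_ch_le _ _).trans ?_)
          rw [sum_const, card_range, nsmul_eq_mul, mul_one]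
          push_cast
          exact le_refl _
        refine (le_abs_self _).trans ?_
        rw [abs_mul]
        have := mul_le_mul htt h8 (abs_nonneg _) zero_le_one
        linarith
      · rw [if_neg hs, zero_add]
        refine (le_abs_self _).trans ?_
        rw [abs_mul]
        have hD : |((F z' * F z : ℤ) : ℝ)| ≤ N1 ^ 2 := by
          rw [Int.cast_mul, abs_mul, sq]
          exact mul_le_mul (hF z' hz') (hF z hz) (abs_nonneg _) (by linarith)
        have := mul_le_mul htt (hPV (F z' * F z) N1 (Q ^ (n + 1)) hs hN1 hD) (abs_nonneg _) zero_le_one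
        linarith
    have h8 : ∑ z' ∈ Z, ∑ m ∈ range (Q ^ (n + 1) + 1), ∑ z ∈ Z, t z' * t z * ch (F z' * F z) m ≤
        ∑ z' ∈ Z, ∑ z ∈ Z, ((if IsSquare (F z' * F z) then ((Q : ℝ) ^ (n + 1) + 1) else 0) + PV) := by
      refine sum_le_sum fun z' hz' => ?_
      rw [sum_comm]
      exact sum_le_sum fun z hz => h7 z' hz' z hz
    refine h8.trans ?_
    have e2 : ∑ z' ∈ Z, ∑ z ∈ Z, ((if IsSquare (F z' * F z) then ((Q : ℝ) ^ (n + 1) + 1) else 0) + PV) =
        (((Z ×ˢ Z).filter fun p => IsSquare (F p.1 * F p.2)).card : ℝ) * ((Q : ℝ) ^ (n + 1) + 1) +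
          (Z.card : ℝ) ^ 2 * PV := by
      rw [← sum_product', sum_add_distrib, ← sum_filter, sum_const, sum_const, nsmul_eq_mul, nsmul_eq_mul, card_product]
      push_cast
      ring
    rw [e2]
    have h9 : (Z.card : ℝ) ^ 2 ≤ R ^ 2 := pow_le_pow_left₀ (Nat.cast_nonneg _) hR 2
    have h10 := mul_le_mul_of_nonneg_right hSq (show 0 ≤ (Q : ℝ) ^ (n + 1) + 1 by positivity)
    have h11 := mul_le_mul_of_nonneg_right h9 hPV0
    linarith
  set X := ∑ u ∈ T, |G (∏ i, u i)| with hX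
  have hX0 : 0 ≤ X := sum_nonneg fun _ _ => abs_nonneg _
  have h13 : (Λ * B.card) ^ (n + 1) ≤ R ^ n * X := by
    refine (pow_le_pow_left₀ (by positivity) h0 _).trans (h1.trans ?_)
    exact mul_le_mul_of_nonneg_left h2 (by positivity)
  have h14 : X ^ 2 ≤ (B.card : ℝ) ^ (n + 1) * ((n + 1).factorial * (((Q : ℝ) ^ (n + 1) + 1) * Sq + R ^ 2 * PV)) := by
    refine h3.trans (mul_le_mul_of_nonneg_left ?_ (by positivity))
    exact h4.trans (mul_le_mul_of_nonneg_left h5 (by positivity))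
  calc ((Λ * B.card) ^ (n + 1)) ^ 2 ≤ (R ^ n * X) ^ 2 := pow_le_pow_left₀ (by positivity) h13 2
    _ = (R ^ n) ^ 2 * X ^ 2 := by ring
    _ ≤ _ := mul_le_mul_of_nonneg_left h14 (by positivity)

end Pool.Agent.K1H93.PG
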