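import Mathlib

/-!
# Short bilinear forms with characters: closed walks

The `2 r`-th power of the operator norm of the matrix `h (v a + v b)`, `h` multiplicative, is at most the sum of
`h (n) conj (h (m))` over the closed walks, where `n`, `m` are the products of the labels of the forward and of the
backward steps.
-/

set_option autoImplicit false

namespace Pool.Agent.K1H93.PG

open Finset Matrix
open scoped ComplexOrder

/-- the walks with `s` double steps -/
def Wk (κ : Type) : ℕ → Type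
  | 0 => Unit
  | s + 1 => (κ × κ) × Wk κ s

instance instFintypeWk (κ : Type) [Fintype κ] : (s : ℕ) → Fintype (Wk κ s)
  | 0 => inferInstanceAs (Fintype Unit)
  | s + 1 =>
    letI := instFintypeWk κ s
    inferInstanceAs (Fintype ((κ × κ) × Wk κ s))

theorem card_Wk (κ : Type) [Fintype κ] (s : ℕ) : Fintype.card (Wk κ s) = Fintype.card κ ^ (2 * s) := by
  induction s with
  | zero => exact Fintype.card_unit
  | succ s ih =>
    have h : Fintype.card (Wk κ (s + 1)) = Fintype.card ((κ × κ) × Wk κ s) := rfl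
    rw [h, Fintype.card_prod, Fintype.card_prod, ih]
    ring

/-- the last vertex -/
def lst {κ : Type} : (s : ℕ) → κ → Wk κ s → κ
  | 0, x, _ => x
  | s + 1, _, w => lst s w.1.2 w.2

/-- the product of the labels of the forward steps -/
def nn {κ : Type} (v : κ → ℤ) : (s : ℕ) → κ → Wk κ s → ℤ
  | 0, _, _ => 1
  | s + 1, x, w => (v x + v w.1.1) * nn v s w.1.2 w.2

/-- the product of the labels of the backward steps -/
def mm {κ : Type} (v : κ → ℤ) : (s : ℕ) → κ → Wk κ s → ℤ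
  | 0, _, _ => 1
  | s + 1, _, w => (v w.1.2 + v w.1.1) * mm v s w.1.2 w.2

/-- the matrix -/
noncomputable def MM {κ : Type} (v : κ → ℤ) (h : ℤ → ℂ) : Matrix κ κ ℂ := Matrix.of fun a b => h (v a + v b)

section
variable {κ : Type} [Fintype κ] [DecidableEq κ] (v : κ → ℤ) (h : ℤ → ℂ)

omit [DecidableEq κ] in
theorem sum_Wk {s : ℕ} (F : Wk κ (s + 1) → ℂ) : ∑ w, F w = ∑ b : κ, ∑ z : κ, ∑ w : Wk κ s, F ((b, z), w) := by
  let F' : (κ × κ) × Wk κ s → ℂ := F
  have e : ∑ w, F w = ∑ w : (κ × κ) × Wk κ s, F' w := rfl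
  rw [e, Fintype.sum_prod_type, Fintype.sum_prod_type]

theorem pow_apply (h1 : h 1 = 1) (hm : ∀ x y, h (x * y) = h x * h y) (s : ℕ) : ∀ x y : κ,
    ((MM v h * (MM v h)ᴴ) ^ s) x y =
      ∑ w : Wk κ s, if lst s x w = y then h (nn v s x w) * star (h (mm v s x w)) else 0 := by
  induction s with
  | zero =>
    intro x y
    have e : ∑ w : Wk κ 0, (if lst 0 x w = y then h (nn v 0 x w) * star (h (mm v 0 x w)) else 0) =
        if x = y then (1 : ℂ) else 0 := by
      have e2 : ∑ w : Wk κ 0, (if lst 0 x w = y then h (nn v 0 x w) * star (h (mm v 0 x w)) else 0) =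
          ∑ w : Unit, (if lst 0 x w = y then h (nn v 0 x w) * star (h (mm v 0 x w)) else 0) := rfl
      rw [e2]
      simp [lst, nn, mm, h1]
    rw [e, pow_zero, Matrix.one_apply]
  | succ s ih =>
    intro x y
    rw [pow_succ', Matrix.mul_apply, sum_Wk]
    have e : ∀ z : κ, (MM v h * (MM v h)ᴴ) x z = ∑ b : κ, h (v x + v b) * star (h (v z + v b)) := by
      intro z
      rw [Matrix.mul_apply]
      rfl
    simp only [ih, e]
    rw [Finset.sum_comm (s := univ (α := κ)) (t := univ (α := κ)) (f := fun b z => ∑ w : Wk κ s,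
      if lst (s + 1) x ((b, z), w) = y then h (nn v (s + 1) x ((b, z), w)) * star (h (mm v (s + 1) x ((b, z), w)))
      else 0)]
    refine sum_congr rfl fun z _ => ?_
    rw [sum_mul]
    refine sum_congr rfl fun b _ => ?_
    rw [mul_sum]
    refine sum_congr rfl fun w _ => ?_
    change _ = if lst s z w = y then h ((v x + v b) * nn v s z w) * star (h ((v z + v b) * mm v s z w)) else 0
    split_ifs with hy
    · rw [hm, hm, star_mul']
      ring
    · rw [mul_zero]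

/-- the closed walks, with the start given by the end -/
def n1 {s : ℕ} (w : Wk κ (s + 1)) : ℤ := nn v (s + 1) (lst s w.1.2 w.2) w

def m1 {s : ℕ} (w : Wk κ (s + 1)) : ℤ := mm v (s + 1) (lst s w.1.2 w.2) w

theorem trace_eq (h1 : h 1 = 1) (hm : ∀ x y, h (x * y) = h x * h y) (s : ℕ) :
    Matrix.trace ((MM v h * (MM v h)ᴴ) ^ (s + 1)) =
      ∑ w : Wk κ (s + 1), h (n1 v w) * star (h (m1 v w)) := by
  unfold Matrix.trace
  simp only [Matrix.diag_apply, pow_apply v h h1 hm]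
  rw [sum_comm]
  refine sum_congr rfl fun w _ => ?_
  have e : ∀ x : κ, lst (s + 1) x w = lst s w.1.2 w.2 := fun x => rfl
  simp only [e]
  rw [sum_ite_eq]
  simp only [mem_univ, if_true]
  rfl

end

/-- quadratic forms and traces of powers -/
theorem quad_pow {κ : Type} [Fintype κ] [DecidableEq κ] (H : Matrix κ κ ℂ) (hH : H.PosSemidef) (x : κ → ℂ) (r : ℕ)
    (hr : r ≠ 0) :
    ‖star x ⬝ᵥ (H *ᵥ x)‖ ^ r ≤ (∑ i, ‖x i‖ ^ 2) ^ r * ‖Matrix.trace (H ^ r)‖ := by
  have hA := hH.1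
  set U : Matrix κ κ ℂ := (hA.eigenvectorUnitary : Matrix κ κ ℂ) with hU
  set d : κ → ℝ := hA.eigenvalues with hd
  have hd0 : ∀ i, 0 ≤ d i := hH.eigenvalues_nonneg
  set D : Matrix κ κ ℂ := diagonal (RCLike.ofReal ∘ d) with hD
  have hUU : U * star U = 1 := Unitary.mul_star_self_of_mem hA.eigenvectorUnitary.2
  have hUU' : star U * U = 1 := Unitary.star_mul_self_of_mem hA.eigenvectorUnitary.2
  have hs : H = U * D * star U := by
    have := hA.spectral_theorem
    rw [Unitary.conjStarAlgAut_apply] at this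
    exact this
  have hpow : H ^ r = U * D ^ r * star U := by
    clear hr
    induction r with
    | zero => rw [pow_zero, pow_zero, mul_one, hUU]
    | succ r ih =>
      rw [pow_succ, ih, pow_succ]
      nth_rewrite 1 [hs]
      calc U * D ^ r * star U * (U * D * star U) = U * D ^ r * (star U * U) * D * star U := by
            simp only [mul_assoc]
        _ = _ := by rw [hUU', mul_one, mul_assoc U]
  have htr : Matrix.trace (H ^ r) = ((∑ i, d i ^ r : ℝ) : ℂ) := by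
    rw [hpow, Matrix.trace_mul_comm, ← mul_assoc, hUU', one_mul, hD, Matrix.diagonal_pow, Matrix.trace_diagonal]
    push_cast
    rfl
  have htr0 : 0 ≤ ∑ i, d i ^ r := sum_nonneg fun i _ => pow_nonneg (hd0 i) r
  rw [htr, Complex.norm_real, Real.norm_of_nonneg htr0]
  set y : κ → ℂ := star U *ᵥ x with hy
  have hq : star x ⬝ᵥ (H *ᵥ x) = star y ⬝ᵥ (D *ᵥ y) := by
    rw [hs, hy, Matrix.star_mulVec, ← Matrix.dotProduct_mulVec, star_eq_conjTranspose, conjTranspose_conjTranspose,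
      Matrix.mulVec_mulVec, Matrix.mulVec_mulVec]
  have hq2 : star y ⬝ᵥ (D *ᵥ y) = ((∑ i, d i * ‖y i‖ ^ 2 : ℝ) : ℂ) := by
    rw [dotProduct]
    push_cast
    refine sum_congr rfl fun i _ => ?_
    rw [hD, Matrix.mulVec_diagonal, Pi.star_apply, ← Complex.conj_mul']
    simp only [Function.comp_apply, Complex.coe_algebraMap, RCLike.star_def]
    ring
  have hn : ∑ i, ‖y i‖ ^ 2 = ∑ i, ‖x i‖ ^ 2 := by
    have e : ∀ u : κ → ℂ, ((∑ i, ‖u i‖ ^ 2 : ℝ) : ℂ) = star u ⬝ᵥ u := by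
      intro u
      rw [dotProduct]
      push_cast
      refine sum_congr rfl fun i _ => ?_
      rw [Pi.star_apply, ← Complex.conj_mul']
      rfl
    have e2 : star y ⬝ᵥ y = star x ⬝ᵥ x := by
      rw [hy, Matrix.star_mulVec, ← Matrix.dotProduct_mulVec, star_eq_conjTranspose, conjTranspose_conjTranspose,
        Matrix.mulVec_mulVec, ← star_eq_conjTranspose, hUU, Matrix.one_mulVec]
    have := e y
    rw [e2, ← e x] at this
    exact_mod_cast this
  have hq0 : 0 ≤ ∑ i, d i * ‖y i‖ ^ 2 := sum_nonneg fun i _ => mul_nonneg (hd0 i) (by positivity)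
  rw [hq, hq2, Complex.norm_real, Real.norm_of_nonneg hq0, ← hn]
  rcases isEmpty_or_nonempty κ with he | hne
  · simp [hr]
  obtain ⟨i0, hi0⟩ := exists_max_image (univ : Finset κ) d ⟨Classical.arbitrary κ, mem_univ _⟩
  have h1 : ∑ i, d i * ‖y i‖ ^ 2 ≤ d i0 * ∑ i, ‖y i‖ ^ 2 := by
    rw [mul_sum]
    exact sum_le_sum fun i _ => mul_le_mul_of_nonneg_right (hi0.2 i (mem_univ _)) (by positivity)
  have h2 : d i0 ^ r ≤ ∑ i, d i ^ r :=
    single_le_sum (f := fun i => d i ^ r) (fun i _ => pow_nonneg (hd0 i) r) (mem_univ i0)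
  calc (∑ i, d i * ‖y i‖ ^ 2) ^ r ≤ (d i0 * ∑ i, ‖y i‖ ^ 2) ^ r := pow_le_pow_left₀ hq0 h1 r
    _ = (∑ i, ‖y i‖ ^ 2) ^ r * d i0 ^ r := by rw [mul_pow, mul_comm]
    _ ≤ _ := mul_le_mul_of_nonneg_left h2 (by positivity)

/-- the bilinear form and the closed walks -/
theorem form_le {κ : Type} [Fintype κ] [DecidableEq κ] (v : κ → ℤ) (h : ℤ → ℂ) (h1 : h 1 = 1)
    (hm : ∀ x y, h (x * y) = h x * h y) (f g : κ → ℂ) (s : ℕ) :
    ‖∑ a, ∑ b, f a * g b * h (v a + v b)‖ ^ (2 * (s + 1)) ≤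
      (∑ a, ‖f a‖ ^ 2) ^ (s + 1) * (∑ b, ‖g b‖ ^ 2) ^ (s + 1) *
        ‖∑ w : Wk κ (s + 1), h (n1 v w) * star (h (m1 v w))‖ := by
  set u : κ → ℂ := fun b => ∑ a, f a * h (v a + v b) with hu
  have e1 : ∑ a, ∑ b, f a * g b * h (v a + v b) = ∑ b, g b * u b := by
    rw [sum_comm]
    refine sum_congr rfl fun b _ => ?_
    rw [hu, mul_sum]
    exact sum_congr rfl fun a _ => by ring
  have e2 : ‖∑ b, g b * u b‖ ^ 2 ≤ (∑ b, ‖g b‖ ^ 2) * ∑ b, ‖u b‖ ^ 2 := by
    have h3 : ‖∑ b, g b * u b‖ ≤ ∑ b, ‖g b‖ * ‖u b‖ :=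
      (norm_sum_le _ _).trans (sum_le_sum fun b _ => (norm_mul _ _).le)
    calc ‖∑ b, g b * u b‖ ^ 2 ≤ (∑ b, ‖g b‖ * ‖u b‖) ^ 2 := pow_le_pow_left₀ (norm_nonneg _) h3 2
      _ ≤ _ := sum_mul_sq_le_sq_mul_sq _ _ _
  set H : Matrix κ κ ℂ := MM v h * (MM v h)ᴴ with hH
  have e3 : ((∑ b, ‖u b‖ ^ 2 : ℝ) : ℂ) = star (star f) ⬝ᵥ (H *ᵥ (star f)) := by
    rw [hH, ← Matrix.mulVec_mulVec, Matrix.dotProduct_mulVec]
    have e4 : (MM v h)ᴴ *ᵥ star f = star u := by
      funext b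
      rw [Matrix.mulVec, dotProduct, Pi.star_apply, hu]
      simp only [Matrix.conjTranspose_apply, MM, Matrix.of_apply, Pi.star_apply]
      rw [star_sum]
      exact sum_congr rfl fun a _ => by rw [star_mul']; ring
    have e5 : star (star f) ᵥ* MM v h = u := by
      funext b
      rw [star_star, Matrix.vecMul, dotProduct, hu]
      rfl
    rw [e4, e5, dotProduct]
    push_cast
    refine sum_congr rfl fun b _ => ?_
    rw [Pi.star_apply, ← Complex.mul_conj']
    rfl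
  have e6 : ∑ b, ‖u b‖ ^ 2 = ‖star (star f) ⬝ᵥ (H *ᵥ (star f))‖ := by
    rw [← e3, Complex.norm_real, Real.norm_of_nonneg (sum_nonneg fun b _ => by positivity)]
  have e7 := quad_pow H (Matrix.posSemidef_self_mul_conjTranspose _) (star f) (s + 1) (by omega)
  rw [← e6, hH, trace_eq v h h1 hm] at e7
  have e8 : ∑ i, ‖(star f) i‖ ^ 2 = ∑ i, ‖f i‖ ^ 2 := sum_congr rfl fun i _ => by rw [Pi.star_apply, norm_star]
  rw [e8] at e7
  rw [e1, pow_mul]
  calc (‖∑ b, g b * u b‖ ^ 2) ^ (s + 1) ≤ ((∑ b, ‖g b‖ ^ 2) * ∑ b, ‖u b‖ ^ 2) ^ (s + 1) :=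
        pow_le_pow_left₀ (by positivity) e2 _
    _ = (∑ b, ‖g b‖ ^ 2) ^ (s + 1) * (∑ b, ‖u b‖ ^ 2) ^ (s + 1) := mul_pow _ _ _
    _ ≤ (∑ b, ‖g b‖ ^ 2) ^ (s + 1) * ((∑ i, ‖f i‖ ^ 2) ^ (s + 1) *
        ‖∑ w : Wk κ (s + 1), h (n1 v w) * star (h (m1 v w))‖) := mul_le_mul_of_nonneg_left e7 (by positivity)
    _ = _ := by ring

end Pool.Agent.K1H93.PG
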